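import Mathlib

set_option autoImplicit false

/-!
# [H44 TB Ari] Real inequalities for the discriminants (MP_ce02af_co, balls)
-/

namespace Pool.Agent.H44.TB

theorem cs2 (p q α β : ℝ) : (p * α + q * β) ^ 2 ≤ (p ^ 2 + q ^ 2) * (α ^ 2 + β ^ 2) := by
  nlinarith [sq_nonneg (p * β - q * α)]

/-- balls of the first two kinds, necessary condition -/
theorem nec1 {p q α β d θ : ℝ} (hθ : 0 < θ) (hη : α ^ 2 + β ^ 2 ≤ θ)
    (h : (1 + α ^ 2 + β ^ 2) * (p ^ 2 + q ^ 2 - 4 * p) ≤ (p * α + q * β - d) ^ 2) :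
    -(4 * p) ≤ (1 + θ) * d ^ 2 := by
  set η := α ^ 2 + β ^ 2 with hηd
  have hη0 : 0 ≤ η := by positivity
  set g := p * α + q * β with hg
  have h1 : g ^ 2 ≤ (p ^ 2 + q ^ 2) * η := cs2 p q α β
  have h2 : θ * (g - d) ^ 2 ≤ (θ + 1) * g ^ 2 + θ * (1 + θ) * d ^ 2 := by
    nlinarith [sq_nonneg (g + θ * d)]
  have e1 : 1 + α ^ 2 + β ^ 2 = 1 + η := by rw [hηd]; ring
  rw [e1] at h
  have h3 : θ * ((1 + η) * (p ^ 2 + q ^ 2 - 4 * p)) ≤
      (θ + 1) * ((p ^ 2 + q ^ 2) * η) + θ * (1 + θ) * d ^ 2 := by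
    have := mul_le_mul_of_nonneg_left h hθ.le
    have := mul_le_mul_of_nonneg_left h1 (by linarith : (0 : ℝ) ≤ θ + 1)
    linarith
  have h4 : θ * ((1 + η) * (-(4 * p))) ≤ θ * ((1 + θ) * d ^ 2) := by
    have h5 : 0 ≤ (p ^ 2 + q ^ 2) * (θ - η) := by
      apply mul_nonneg (by positivity); linarith
    nlinarith
  have h6 : (1 + η) * (-(4 * p)) ≤ (1 + θ) * d ^ 2 := le_of_mul_le_mul_left h4 hθ
  have h7 : 0 ≤ (1 + θ) * d ^ 2 := by positivity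
  rcases le_total 0 p with hp | hp
  · linarith
  · nlinarith

/-- balls of the third kind, necessary condition -/
theorem nec2 {p q α β μ l h : ℝ} (hμ : 0 < μ) (hη : α ^ 2 + β ^ 2 ≤ 1 / 2)
    (hh : (1 + α ^ 2 + β ^ 2) * (p ^ 2 + q ^ 2 + 2 * μ * l) ≤ (p * α + q * β + μ * h) ^ 2) :
    l ≤ μ * h ^ 2 := by
  set η := α ^ 2 + β ^ 2 with hηd
  have hη0 : 0 ≤ η := by positivity
  set g := p * α + q * β with hg
  have h1 : g ^ 2 ≤ (p ^ 2 + q ^ 2) * η := cs2 p q α β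
  have e1 : 1 + α ^ 2 + β ^ 2 = 1 + η := by rw [hηd]; ring
  rw [e1] at hh
  have hR : 0 ≤ p ^ 2 + q ^ 2 := by positivity
  have h2 : (g + μ * h) ^ 2 ≤ 2 * g ^ 2 + 2 * (μ * h) ^ 2 := by
    nlinarith [sq_nonneg (g - μ * h)]
  have h3 : (p ^ 2 + q ^ 2) * η ≤ (p ^ 2 + q ^ 2) * (1 / 2) := mul_le_mul_of_nonneg_left hη hR
  have h4 : (1 + η) * (2 * μ * l) ≤ 2 * (μ * h) ^ 2 := by
    have h5 : 0 ≤ (p ^ 2 + q ^ 2) * η := by positivity
    nlinarith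
  have h5 : μ * ((1 + η) * l) ≤ μ * (μ * h ^ 2) := by nlinarith
  have h6 : (1 + η) * l ≤ μ * h ^ 2 := le_of_mul_le_mul_left h5 hμ
  have h7 : 0 ≤ μ * h ^ 2 := by positivity
  rcases le_total 0 l with hl | hl
  · nlinarith
  · linarith

/-- balls of the fourth kind, necessary condition -/
theorem nec3 {p q α β L : ℝ} (hL : 0 < L)
    (h : (1 + α ^ 2 + β ^ 2) * (p ^ 2 + q ^ 2 - 2 * L * (p + q)) ≤ (p * α + q * β) ^ 2) :
    0 ≤ p + q := by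
  have h1 := cs2 p q α β
  by_contra hcon
  push Not at hcon
  have h2 : 0 < (1 + α ^ 2 + β ^ 2) * (2 * L * -(p + q)) := by
    have : 0 < -(p + q) := by linarith
    positivity
  have h3 : 0 ≤ p ^ 2 + q ^ 2 := by positivity
  nlinarith

/-- the sample lines meet the balls of the first two kinds -/
theorem smp1 {a e h s P Q A B X : ℝ} (ha : 3 ≤ a) (he : 0 < e) (hP : P = -s ^ 2 + h)
    (hP0 : P ≤ 0) (hP1 : -1 ≤ P) (hQ0 : Q ≤ 0) (hQ1 : -1 ≤ Q) (hA0 : 0 ≤ A) (hA : A ≤ 2 * a)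
    (hB0 : 0 ≤ B) (hB : B ≤ 2 * a) (hs0 : 0 < s) (hs1 : s ≤ 1) (hX : s ^ 2 ≤ X ^ 2)
    (h1 : 66 * a ^ 2 * e ^ 2 ≤ 4 * h) (h2 : 4 * a * e ^ 2 ≤ 2 * s) (h3 : a ^ 2 * e ^ 2 ≤ 1 / 8) :
    (1 + (e * A) ^ 2 + (e * B) ^ 2) * ((e ^ 2 * P) ^ 2 + (e ^ 2 * Q) ^ 2 - 4 * (e ^ 2 * P)) ≤
      (e ^ 2 * P * (e * A) + e ^ 2 * Q * (e * B) - 2 * e * X) ^ 2 := by
  set w := e ^ 2 with hw
  have hw0 : 0 < w := by positivity
  set y := w * (P * A + Q * B) with hy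
  have hy0 : y ≤ 0 := by
    rw [hy]
    apply mul_nonpos_of_nonneg_of_nonpos hw0.le
    nlinarith
  have hy1 : -(4 * a * w) ≤ y := by
    rw [hy]
    have : -(4 * a) ≤ P * A + Q * B := by nlinarith
    nlinarith
  have hX' : s ≤ |X| := by
    rw [← abs_of_pos hs0]; exact sq_le_sq.1 hX
  have hy2 : |y| ≤ 4 * a * w := by rw [abs_of_nonpos hy0]; linarith
  have h4 : (2 * s - 4 * a * w) ^ 2 ≤ (y - 2 * X) ^ 2 := by
    rw [← sq_abs (y - 2 * X)]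
    apply pow_le_pow_left₀ (by linarith)
    have h5 : |2 * X| - |y| ≤ |y - 2 * X| := by
      have := abs_sub_abs_le_abs_sub (2 * X) y
      rwa [abs_sub_comm] at this
    rw [abs_mul, abs_two] at h5
    linarith
  have h6 : 4 * s ^ 2 - 16 * a * w ≤ (2 * s - 4 * a * w) ^ 2 := by
    have : s * (a * w) ≤ a * w := by
      have : 0 ≤ a * w := by positivity
      nlinarith
    nlinarith [sq_nonneg (4 * a * w)]
  set T := w * (P ^ 2 + Q ^ 2) - 4 * P with hT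
  have hPQ : P ^ 2 + Q ^ 2 ≤ 2 := by nlinarith
  have hwa : 9 * w ≤ a ^ 2 * w := by nlinarith
  have hT1 : T ≤ 2 * w + 4 * s ^ 2 - 4 * h := by
    rw [hT, hP]
    have : w * (P ^ 2 + Q ^ 2) ≤ w * 2 := mul_le_mul_of_nonneg_left hPQ hw0.le
    rw [hP] at this
    linarith
  have hT0 : 0 ≤ T := by
    rw [hT]
    have : 0 ≤ w * (P ^ 2 + Q ^ 2) := by positivity
    linarith
  have hh0 : 0 ≤ h := by nlinarith
  have hT5 : T ≤ 5 := by nlinarith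
  have hAB : A ^ 2 + B ^ 2 ≤ 8 * a ^ 2 := by nlinarith
  have h7 : (1 + w * (A ^ 2 + B ^ 2)) * T ≤ T + 40 * (a ^ 2 * w) := by
    have h8 : w * (A ^ 2 + B ^ 2) ≤ 8 * (a ^ 2 * w) := by
      have := mul_le_mul_of_nonneg_left hAB hw0.le
      linarith
    have h9 : w * (A ^ 2 + B ^ 2) * T ≤ 8 * (a ^ 2 * w) * 5 :=
      mul_le_mul h8 hT5 hT0 (by positivity)
    linarith
  have h10 : (1 + w * (A ^ 2 + B ^ 2)) * T ≤ (y - 2 * X) ^ 2 := by
    have : a * w ≤ a ^ 2 * w := by nlinarith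
    nlinarith
  have e1 : (1 + (e * A) ^ 2 + (e * B) ^ 2) * ((w * P) ^ 2 + (w * Q) ^ 2 - 4 * (w * P)) =
      w * ((1 + w * (A ^ 2 + B ^ 2)) * T) := by
    rw [hT, hw]; ring
  have e2 : (w * P * (e * A) + w * Q * (e * B) - 2 * e * X) ^ 2 = w * (y - 2 * X) ^ 2 := by
    rw [hy, hw]; ring
  rw [e1, e2]
  exact mul_le_mul_of_nonneg_left h10 hw0.le

/-- the sample lines meet the balls of the fourth kind -/
theorem smp3 {a e P Q A B X δ L : ℝ} (ha : 3 ≤ a) (he : 0 < e)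
    (hP0 : P ≤ 0) (hP1 : -1 ≤ P) (hQ0 : Q ≤ 0) (hQ1 : -1 ≤ Q) (hA0 : 0 ≤ A) (hA : A ≤ 2 * a)
    (hB0 : 0 ≤ B) (hB : B ≤ 2 * a) (hδ0 : 0 < δ) (hδ1 : δ ≤ 1) (hX : δ ≤ |X|)
    (hL : L * δ ^ 2 = 16) (h3 : a ^ 2 * e ^ 2 ≤ 1 / 8) :
    (1 + (e * A) ^ 2 + (e * B) ^ 2) *
        ((e ^ 2 * P) ^ 2 + (e ^ 2 * Q) ^ 2 - 2 * L * (e ^ 2 * P + e ^ 2 * Q)) ≤
      (e ^ 2 * P * (e * A) + e ^ 2 * Q * (e * B) - L * e * X) ^ 2 := by
  set w := e ^ 2 with hw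
  have hw0 : 0 < w := by positivity
  have hL0 : 0 < L := by
    by_contra hcon
    push Not at hcon
    have : L * δ ^ 2 ≤ 0 := mul_nonpos_of_nonpos_of_nonneg hcon (by positivity)
    linarith
  have hL16 : 16 ≤ L := by
    have : δ ^ 2 ≤ 1 := by nlinarith
    nlinarith
  have hLδ : 16 ≤ L * δ := by
    have : L * δ ^ 2 ≤ L * δ := by nlinarith [mul_pos hL0 hδ0]
    linarith
  set y := w * (P * A + Q * B) with hy
  have haw : a * w ≤ a ^ 2 * w := mul_le_mul_of_nonneg_right (by nlinarith) hw0.le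
  have hwa : 9 * w ≤ a ^ 2 * w := mul_le_mul_of_nonneg_right (by nlinarith) hw0.le
  have hy0 : y ≤ 0 := by
    rw [hy]
    apply mul_nonpos_of_nonneg_of_nonpos hw0.le
    nlinarith
  have hy1 : -1 ≤ y := by
    rw [hy]
    have h1 : -(4 * a) ≤ P * A + Q * B := by nlinarith
    have h2 : w * -(4 * a) ≤ w * (P * A + Q * B) := mul_le_mul_of_nonneg_left h1 hw0.le
    linarith
  have hy2 : |y| ≤ 1 := by rw [abs_of_nonpos hy0]; linarith
  have h4 : (L * δ - 1) ^ 2 ≤ (y - L * X) ^ 2 := by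
    rw [← sq_abs (y - L * X)]
    apply pow_le_pow_left₀ (by linarith)
    have h5 : |L * X| - |y| ≤ |y - L * X| := by
      have := abs_sub_abs_le_abs_sub (L * X) y
      rwa [abs_sub_comm] at this
    rw [abs_mul, abs_of_pos hL0] at h5
    have : L * δ ≤ L * |X| := mul_le_mul_of_nonneg_left hX hL0.le
    linarith
  have h5 : 14 * L ≤ (L * δ - 1) ^ 2 := by
    have h6 : (L * δ) ^ 2 = 16 * L := by
      have : (L * δ) ^ 2 = L * (L * δ ^ 2) := by ring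
      rw [this, hL]; ring
    have h7 : 2 * (L * δ) ≤ 2 * L := by nlinarith
    have h8 : (15 / 16 * (L * δ)) ^ 2 ≤ (L * δ - 1) ^ 2 := by
      apply pow_le_pow_left₀ (by positivity); linarith
    have h9 : (15 / 16 * (L * δ)) ^ 2 = 225 / 16 * L := by
      rw [mul_pow, h6]; ring
    rw [h9] at h8
    linarith
  have hPQ : P ^ 2 + Q ^ 2 ≤ 2 := by nlinarith
  set T := w * (P ^ 2 + Q ^ 2) - 2 * L * (P + Q) with hT
  have hT0 : 0 ≤ T := by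
    rw [hT]
    have h6 : 0 ≤ w * (P ^ 2 + Q ^ 2) := by positivity
    have h7 : 0 ≤ L * -(P + Q) := by
      apply mul_nonneg hL0.le; linarith
    linarith
  have hT1 : T ≤ 1 + 4 * L := by
    rw [hT]
    have h6 : w * (P ^ 2 + Q ^ 2) ≤ w * 2 := mul_le_mul_of_nonneg_left hPQ hw0.le
    have h7 : L * -(P + Q) ≤ L * 2 := mul_le_mul_of_nonneg_left (by linarith) hL0.le
    linarith
  have hAB : A ^ 2 + B ^ 2 ≤ 8 * a ^ 2 := by nlinarith
  have h7 : (1 + w * (A ^ 2 + B ^ 2)) * T ≤ 2 * (1 + 4 * L) := by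
    have h8 : w * (A ^ 2 + B ^ 2) ≤ 1 := by
      have := mul_le_mul_of_nonneg_left hAB hw0.le
      linarith
    exact mul_le_mul (by linarith) hT1 hT0 (by norm_num)
  have h10 : (1 + w * (A ^ 2 + B ^ 2)) * T ≤ (y - L * X) ^ 2 := by linarith
  have e1 : (1 + (e * A) ^ 2 + (e * B) ^ 2) *
      ((w * P) ^ 2 + (w * Q) ^ 2 - 2 * L * (w * P + w * Q)) =
      w * ((1 + w * (A ^ 2 + B ^ 2)) * T) := by
    rw [hT, hw]; ring
  have e2 : (w * P * (e * A) + w * Q * (e * B) - L * e * X) ^ 2 = w * (y - L * X) ^ 2 := by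
    rw [hy, hw]; ring
  rw [e1, e2]
  exact mul_le_mul_of_nonneg_left h10 hw0.le

/-- from the three conditions to the inequality of `CubicLowerBound` -/
theorem comb {a r s t p q e μ θ : ℝ} (ha : 3 ≤ a) (he : 0 < e) (hr : 1 / a ≤ r)
    (hr' : 1 / a ≤ 1 - r) (hs0 : 0 ≤ s) (hs1 : s ≤ 1) (ht0 : 0 ≤ t) (ht1 : t ≤ 1)
    (hθ : 0 < θ) (hp : -(4 * p) ≤ (1 + θ) * (2 * e * s) ^ 2)
    (hq : -(4 * q) ≤ (1 + θ) * (2 * e * t) ^ 2)
    (hl : (1 - r) * p + r * q + r * (1 - r) * e ^ 2 ≤ μ * (2 * a * e) ^ 2)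
    (hsm : 4 * μ * a ^ 2 + θ ≤ 1 / (32 * a ^ 4)) :
    1 - 1 / (16 * a ^ 3) ≤ s ^ 2 / r + t ^ 2 / (1 - r) := by
  have ha0 : 0 < a := by linarith
  have h1a : 0 < 1 / a := by positivity
  have hr0 : 0 < r := by linarith
  have hr2 : 0 < 1 - r := by linarith
  have hw0 : 0 < e ^ 2 := by positivity
  set W := (1 - r) * s ^ 2 + r * t ^ 2 with hW
  have hW1 : W ≤ 1 := by
    have h1 : s ^ 2 ≤ 1 := pow_le_one₀ hs0 hs1
    have h2 : t ^ 2 ≤ 1 := pow_le_one₀ ht0 ht1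
    rw [hW]
    nlinarith
  have h1 : e ^ 2 * (r * (1 - r)) ≤ e ^ 2 * (4 * μ * a ^ 2 + (1 + θ) * W) := by
    have h2 := mul_le_mul_of_nonneg_left hp hr2.le
    have h3 := mul_le_mul_of_nonneg_left hq hr0.le
    rw [hW]
    nlinarith
  have h2 : r * (1 - r) ≤ 4 * μ * a ^ 2 + (1 + θ) * W := le_of_mul_le_mul_left h1 hw0
  have h3 : r * (1 - r) - 1 / (32 * a ^ 4) ≤ W := by nlinarith
  have h4 : 1 / (2 * a) ≤ r * (1 - r) := by
    have h5 : 0 ≤ (r - 1 / a) * (1 - r - 1 / a) := mul_nonneg (by linarith) (by linarith)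
    have h6 : (1 / a) * (1 - 1 / a) ≤ r * (1 - r) := by nlinarith
    have h7 : 1 / (2 * a) ≤ (1 / a) * (1 - 1 / a) := by
      have h8 : 1 / a ≤ 1 / 3 := one_div_le_one_div_of_le (by norm_num) ha
      have h9 : 1 / (2 * a) = (1 / a) * (1 / 2) := by field_simp
      rw [h9]
      exact mul_le_mul_of_nonneg_left (by linarith) h1a.le
    linarith
  have h5 : 1 / (32 * a ^ 4) ≤ 1 / (16 * a ^ 3) * (r * (1 - r)) := by
    have h6 : 1 / (32 * a ^ 4) = 1 / (16 * a ^ 3) * (1 / (2 * a)) := by field_simp; ring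
    rw [h6]
    exact mul_le_mul_of_nonneg_left h4 (by positivity)
  rw [div_add_div _ _ hr0.ne' hr2.ne', le_div_iff₀ (mul_pos hr0 hr2)]
  have e1 : s ^ 2 * (1 - r) + r * t ^ 2 = W := by rw [hW]; ring
  rw [e1]
  linarith

end Pool.Agent.H44.TB
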