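import Mathlib

set_option autoImplicit false

/-!
# [H44 TB Base] Lines in 3-space, balls (MP_ce02af_co)

The topological part and the coordinates are taken from `CubicLowerBound` (helper34).
-/

namespace Pool.Agent.H44.TB

/-- Euclidean 3-space. -/
abbrev E3 : Type := EuclideanSpace ℝ (Fin 3)

/-- The lines in `ℝ³`: affine subspaces whose direction has dimension one. -/
def Line3 : Type := {L : AffineSubspace ℝ E3 // Module.finrank ℝ L.direction = 1}

/-- The line through the point `q.1` with direction vector `q.2 ≠ 0`. -/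
noncomputable def lineThrough (q : {q : E3 × E3 // q.2 ≠ 0}) : Line3 :=
  ⟨AffineSubspace.mk' q.1.1 (ℝ ∙ q.1.2), by
    rw [AffineSubspace.direction_mk']
    exact finrank_span_singleton q.2⟩

/-- The usual topology on the space of lines: the quotient topology for the map sending a point
and a nonzero vector to the line through the point in the direction of the vector. -/
noncomputable instance : TopologicalSpace Line3 := TopologicalSpace.coinduced lineThrough inferInstance

/-- The space of line transversals of a family of sets, a subspace of the space of lines. -/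
def transversalSpace {ι : Type*} (F : ι → Set E3) : Set Line3 :=
  {L | ∀ i, ((L.1 : Set E3) ∩ F i).Nonempty}

section Topology

/-- Lines having a nonzero direction vector in `S`. -/
def dirSet (S : Set E3) : Set Line3 := {L | ∃ v ∈ L.1.direction, v ≠ 0 ∧ v ∈ S}

theorem lineThrough_direction (q : {q : E3 × E3 // q.2 ≠ 0}) :
    (lineThrough q).1.direction = ℝ ∙ q.1.2 :=
  AffineSubspace.direction_mk' _ _

theorem mem_dirSet_lineThrough {S : Set E3} (q : {q : E3 × E3 // q.2 ≠ 0}) :
    lineThrough q ∈ dirSet S ↔ ∃ c : ℝ, c ≠ 0 ∧ c • q.1.2 ∈ S := by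
  unfold dirSet
  constructor
  · rintro ⟨v, hv, hne, hvS⟩
    rw [lineThrough_direction] at hv
    obtain ⟨c, rfl⟩ := Submodule.mem_span_singleton.mp hv
    exact ⟨c, fun h => hne (by rw [h, zero_smul]), hvS⟩
  · rintro ⟨c, hc, h⟩
    refine ⟨c • q.1.2, ?_, smul_ne_zero hc q.2, h⟩
    rw [lineThrough_direction]
    exact Submodule.smul_mem _ _ (Submodule.mem_span_singleton_self _)

theorem isOpen_dirSet {S : Set E3} (hS : IsOpen S) : IsOpen (dirSet S) := by
  have h1 : IsOpen (lineThrough ⁻¹' dirSet S) := by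
    have : lineThrough ⁻¹' dirSet S =
        ⋃ c : {c : ℝ // c ≠ 0}, {q : {q : E3 × E3 // q.2 ≠ 0} | c.1 • q.1.2 ∈ S} := by
      ext q
      rw [Set.mem_preimage, mem_dirSet_lineThrough, Set.mem_iUnion]
      constructor
      · rintro ⟨c, hc, h⟩; exact ⟨⟨c, hc⟩, h⟩
      · rintro ⟨c, h⟩; exact ⟨c.1, c.2, h⟩
    rw [this]
    refine isOpen_iUnion fun c => ?_
    have hc : Continuous fun q : {q : E3 × E3 // q.2 ≠ 0} => c.1 • q.1.2 :=
      (continuous_snd.comp continuous_subtype_val).const_smul c.1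
    exact hS.preimage hc
  exact h1

theorem direction_smul {L : Line3} {v w : E3} (hv : v ∈ L.1.direction) (hv0 : v ≠ 0)
    (hw : w ∈ L.1.direction) : ∃ c : ℝ, w = c • v := by
  have h := (finrank_eq_one_iff_of_nonzero' (⟨v, hv⟩ : L.1.direction) (by
    intro h; apply hv0; exact congrArg Subtype.val h)).mp L.2 ⟨w, hw⟩
  obtain ⟨c, hc⟩ := h
  exact ⟨c, (congrArg Subtype.val hc).symm⟩

theorem exists_direction (L : Line3) : ∃ v ∈ L.1.direction, v ≠ 0 := by
  have h : Module.finrank ℝ L.1.direction ≠ 0 := by rw [L.2]; norm_num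
  have : Nontrivial L.1.direction := by
    by_contra hcon
    rw [not_nontrivial_iff_subsingleton] at hcon
    exact h (Module.finrank_zero_of_subsingleton)
  obtain ⟨v, hv⟩ := exists_ne (0 : L.1.direction)
  exact ⟨v.1, v.2, fun h => hv (Subtype.ext h)⟩

theorem exists_point (L : Line3) : ∃ q : E3, q ∈ L.1 := by
  rcases L.1.eq_bot_or_nonempty with h | h
  · exfalso
    have := L.2
    rw [h, AffineSubspace.direction_bot, finrank_bot] at this
    norm_num at this
  · exact h

/-- If `I` indexes points of a space and pairwise separating clopen sets, the space has at least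
`card I` components. -/
theorem card_le_components {X I : Type*} [TopologicalSpace X] (t : I → X) (W : I → Set X)
    (hW : ∀ i, IsClopen (W i)) (ht : ∀ i, t i ∈ W i) (hsep : ∀ i j, t j ∈ W i → i = j) :
    ENat.card I ≤ ENat.card (ConnectedComponents X) := by
  apply ENat.card_le_card_of_injective (f := fun i => (ConnectedComponents.mk (t i)))
  intro i j hij
  have h1 : connectedComponent (t i) = connectedComponent (t j) :=
    ConnectedComponents.coe_eq_coe.mp hij
  have h2 : t j ∈ connectedComponent (t i) := by rw [h1]; exact mem_connectedComponent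
  exact hsep i j ((hW i).connectedComponent_subset (ht i) h2)

end Topology

section Coordinates

theorem line_coords (L : Line3) {v : E3} (hv : v ∈ L.1.direction) (hv2 : 0 < v 2) :
    ∃ p q : ℝ, ∀ x ∈ L.1, x 0 = p + (v 0 / v 2) * x 2 ∧ x 1 = q + (v 1 / v 2) * x 2 := by
  obtain ⟨y, hy⟩ := exists_point L
  have hv0 : v ≠ 0 := by
    rintro rfl; simp at hv2
  refine ⟨y 0 - (v 0 / v 2) * y 2, y 1 - (v 1 / v 2) * y 2, fun x hx => ?_⟩
  have hxy : x - y ∈ L.1.direction := by
    have := AffineSubspace.vsub_mem_direction hx hy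
    simpa using this
  obtain ⟨c, hc⟩ := direction_smul hv hv0 hxy
  have h0 : x 0 - y 0 = c * v 0 := by
    have := congrArg (fun w : E3 => w 0) hc
    simpa using this
  have h1 : x 1 - y 1 = c * v 1 := by
    have := congrArg (fun w : E3 => w 1) hc
    simpa using this
  have h2 : x 2 - y 2 = c * v 2 := by
    have := congrArg (fun w : E3 => w 2) hc
    simpa using this
  constructor
  · have : x 0 = y 0 + c * v 0 := by linarith
    rw [this]
    have e : x 2 = y 2 + c * v 2 := by linarith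
    rw [e]; field_simp; ring
  · have : x 1 = y 1 + c * v 1 := by linarith
    rw [this]
    have e : x 2 = y 2 + c * v 2 := by linarith
    rw [e]; field_simp; ring

/-- The point with given coordinates. -/
noncomputable def pt (x y z : ℝ) : E3 := WithLp.toLp 2 ![x, y, z]

@[simp] theorem pt_0 (x y z : ℝ) : pt x y z 0 = x := rfl
@[simp] theorem pt_1 (x y z : ℝ) : pt x y z 1 = y := rfl
@[simp] theorem pt_2 (x y z : ℝ) : pt x y z 2 = z := rfl

theorem ext3 {x y : E3} (h0 : x 0 = y 0) (h1 : x 1 = y 1) (h2 : x 2 = y 2) : x = y := by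
  ext i; fin_cases i <;> assumption

theorem pt_ne (a b : ℝ) : pt a b 1 ≠ 0 := by
  intro h
  have := congrArg (fun w : E3 => w 2) h
  simp at this

/-- The line `x = p + a z`, `y = q + b z`. -/
noncomputable def lin (a b p q : ℝ) : Line3 := lineThrough ⟨(pt p q 0, pt a b 1), pt_ne a b⟩

theorem mem_lin (a b p q z : ℝ) : pt (p + a * z) (q + b * z) z ∈ (lin a b p q).1 := by
  have h : (lin a b p q).1 = AffineSubspace.mk' (pt p q 0) (ℝ ∙ pt a b 1) := rfl
  rw [h, AffineSubspace.mem_mk', Submodule.mem_span_singleton]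
  refine ⟨z, ?_⟩
  apply ext3 <;> simp [mul_comm]

theorem dir_lin (a b p q : ℝ) : pt a b 1 ∈ (lin a b p q).1.direction := by
  rw [lin, lineThrough_direction]
  exact Submodule.mem_span_singleton_self _

end Coordinates


section Balls

/-- The ball with centre `(x, y, z)` and squared radius `ρ`. -/
noncomputable def bl (x y z ρ : ℝ) : Set E3 := Metric.closedBall (pt x y z) (Real.sqrt ρ)

theorem mem_bl {x y z ρ : ℝ} (hρ : 0 ≤ ρ) (u : E3) :
    u ∈ bl x y z ρ ↔ (u 0 - x) ^ 2 + (u 1 - y) ^ 2 + (u 2 - z) ^ 2 ≤ ρ := by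
  unfold bl
  rw [Metric.mem_closedBall, EuclideanSpace.dist_eq, Real.sqrt_le_sqrt_iff hρ]
  simp only [Fin.sum_univ_three, pt_0, pt_1, pt_2, Real.dist_eq, sq_abs]

/-- A line `x = p + α z`, `y = q + β z` which meets a ball. -/
theorem disc_of_mem {c0 c1 c2 ρ p q α β : ℝ} (hρ : 0 ≤ ρ) {u : E3} (hu : u ∈ bl c0 c1 c2 ρ)
    (h0 : u 0 = p + α * u 2) (h1 : u 1 = q + β * u 2) :
    (1 + α ^ 2 + β ^ 2) * ((p - c0) ^ 2 + (q - c1) ^ 2 + c2 ^ 2 - ρ) ≤
      ((p - c0) * α + (q - c1) * β - c2) ^ 2 := by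
  rw [mem_bl hρ, h0, h1] at hu
  have hN : 0 < 1 + α ^ 2 + β ^ 2 := by positivity
  have h := mul_nonneg hN.le (sub_nonneg.2 hu)
  nlinarith [sq_nonneg ((1 + α ^ 2 + β ^ 2) * u 2 + ((p - c0) * α + (q - c1) * β - c2))]

/-- Conversely. -/
theorem lin_meets {c0 c1 c2 ρ p q α β : ℝ} (hρ : 0 ≤ ρ)
    (h : (1 + α ^ 2 + β ^ 2) * ((p - c0) ^ 2 + (q - c1) ^ 2 + c2 ^ 2 - ρ) ≤
      ((p - c0) * α + (q - c1) * β - c2) ^ 2) :
    (((lin α β p q).1 : Set E3) ∩ bl c0 c1 c2 ρ).Nonempty := by
  have hN : 0 < 1 + α ^ 2 + β ^ 2 := by positivity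
  set N := 1 + α ^ 2 + β ^ 2 with hNdef
  set D := (p - c0) * α + (q - c1) * β - c2 with hD
  refine ⟨_, mem_lin α β p q (-D / N), ?_⟩
  rw [mem_bl hρ]
  simp only [pt_0, pt_1, pt_2]
  have e : (p + α * (-D / N) - c0) ^ 2 + (q + β * (-D / N) - c1) ^ 2 + (-D / N - c2) ^ 2 - ρ =
      (N * ((p - c0) ^ 2 + (q - c1) ^ 2 + c2 ^ 2 - ρ) - D ^ 2) / N := by
    have e1 : (p + α * (-D / N) - c0) ^ 2 + (q + β * (-D / N) - c1) ^ 2 + (-D / N - c2) ^ 2 =
        (p - c0) ^ 2 + (q - c1) ^ 2 + c2 ^ 2 + 2 * (-D / N) * D + N * (-D / N) ^ 2 := by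
      rw [hD, hNdef]; ring
    rw [e1]
    field_simp
    ring
  have h2 : (N * ((p - c0) ^ 2 + (q - c1) ^ 2 + c2 ^ 2 - ρ) - D ^ 2) / N ≤ 0 :=
    div_nonpos_of_nonpos_of_nonneg (by linarith) hN.le
  linarith

/-- Equal balls have equal centres. -/
theorem center_eq {c c' : E3} {R R' : ℝ} (hR : 0 ≤ R) (hR' : 0 ≤ R')
    (h : Metric.closedBall c R = Metric.closedBall c' R') : c = c' := by
  by_contra hne
  have hd : 0 < ‖c - c'‖ := norm_pos_iff.2 (sub_ne_zero.2 hne)
  have key : ∀ {c c' : E3} {R R' : ℝ}, 0 ≤ R → 0 < ‖c - c'‖ →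
      Metric.closedBall c R ⊆ Metric.closedBall c' R' → ‖c - c'‖ + R ≤ R' := by
    intro c c' R R' hR hd hs
    have h1 : c + (R / ‖c - c'‖) • (c - c') ∈ Metric.closedBall c R := by
      rw [mem_closedBall_iff_norm, add_sub_cancel_left, norm_smul, Real.norm_eq_abs,
        abs_of_nonneg (div_nonneg hR hd.le), div_mul_cancel₀ _ hd.ne']
    have h2 := hs h1
    rw [mem_closedBall_iff_norm] at h2
    have e : c + (R / ‖c - c'‖) • (c - c') - c' = (1 + R / ‖c - c'‖) • (c - c') := by
      rw [add_smul, one_smul]; abel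
    rw [e, norm_smul, Real.norm_eq_abs, abs_of_nonneg (by positivity), add_mul, one_mul,
      div_mul_cancel₀ _ hd.ne'] at h2
    exact h2
  have h1 := key hR hd h.le
  have h2 := key hR' (by rwa [norm_sub_rev] at hd) h.ge
  rw [norm_sub_rev] at h2
  linarith

end Balls

end Pool.Agent.H44.TB
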