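import Pool.Agent.H44.TB.Inj

set_option autoImplicit false

/-!
# [H44 TB Cnt] From the family to exactly `N` balls, and to `C(n)` (MP_ce02af_co)
-/

namespace Pool.Agent.H44.TB

/-- Sets of the form `{p = 0}` or `{p > 0}`, with `p` a real polynomial of degree at most `D`. -/
def IsBasic (D : ℕ) (S : Set E3) : Prop :=
  ∃ p : MvPolynomial (Fin 3) ℝ, p.totalDegree ≤ D ∧
    (S = {x | MvPolynomial.eval (fun i => x i) p = 0} ∨
      S = {x | 0 < MvPolynomial.eval (fun i => x i) p})

/-- Semi-algebraic sets of description complexity at most `(s, D)`: Boolean combinations of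
(at most) `s` sets of the form `{p = 0}` or `{p > 0}` with `deg p ≤ D`. -/
def HasComplexity (s D : ℕ) (S : Set E3) : Prop :=
  ∃ (g : Fin s → Set E3) (φ : (Fin s → Prop) → Prop),
    (∀ i, IsBasic D (g i)) ∧ S = {x | φ fun i => x ∈ g i}

/-- The number `C(n)`: the maximal number of connected components of the space of line
transversals of a family of `n` (distinct) convex sets in `ℝ³`, each semi-algebraic of
description complexity at most `(s, D)`. -/
noncomputable def maxComponents (s D n : ℕ) : ℕ∞ :=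
  ⨆ F : {F : Fin n → Set E3 // Function.Injective F ∧
      ∀ i, Convex ℝ (F i) ∧ HasComplexity s D (F i)},
    ENat.card (ConnectedComponents (transversalSpace F.1))

open MvPolynomial in
/-- A closed ball is given by one quadratic inequality. -/
theorem ball_complexity {s D : ℕ} (hs : 1 ≤ s) (hD : 2 ≤ D) (c : E3) {R : ℝ} (hR : 0 ≤ R) :
    HasComplexity s D (Metric.closedBall c R) := by
  have hdeg : (∑ i : Fin 3, (X i - C (c i)) ^ 2 - C (R ^ 2) : MvPolynomial (Fin 3) ℝ).totalDegree
      ≤ D := by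
    refine le_trans (totalDegree_sub_C_le _ _) ?_
    refine le_trans (totalDegree_finsetSum _ _) ?_
    refine Finset.sup_le fun i _ => ?_
    refine le_trans (totalDegree_pow _ _) ?_
    have h1 := totalDegree_sub_C_le (X i : MvPolynomial (Fin 3) ℝ) (c i)
    rw [totalDegree_X] at h1
    omega
  refine ⟨fun _ => {x | 0 < eval (fun i => x i)
      (∑ i : Fin 3, (X i - C (c i)) ^ 2 - C (R ^ 2) : MvPolynomial (Fin 3) ℝ)},
    fun P => ¬ P ⟨0, hs⟩, fun _ => ⟨_, hdeg, Or.inr rfl⟩, ?_⟩
  ext x
  simp only [Metric.mem_closedBall, Set.mem_ofPred_eq, not_lt]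
  rw [EuclideanSpace.dist_eq, Real.sqrt_le_left hR, ← sub_nonpos]
  simp only [Real.dist_eq, sq_abs, map_sub, map_sum, map_pow, eval_X, eval_C]

/-- A family of distinct closed balls bounds `maxComponents` from below. -/
theorem maxComponents_ge_of_balls {s D n : ℕ} (hs : 1 ≤ s) (hD : 2 ≤ D) (c : Fin n → E3)
    (R : Fin n → ℝ) (hR : ∀ i, 0 < R i)
    (hinj : Function.Injective fun i => Metric.closedBall (c i) (R i)) :
    ENat.card (ConnectedComponents (transversalSpace fun i => Metric.closedBall (c i) (R i)))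
      ≤ maxComponents s D n :=
  le_iSup (fun F : {F : Fin n → Set E3 // Function.Injective F ∧
      ∀ i, Convex ℝ (F i) ∧ HasComplexity s D (F i)} =>
    ENat.card (ConnectedComponents (transversalSpace F.1)))
    ⟨fun i => Metric.closedBall (c i) (R i), hinj,
      fun i => ⟨convex_closedBall _ _, ball_complexity hs hD (c i) (hR i).le⟩⟩

/-- The final statement for `n` balls. -/
def Balls (n : ℕ) : Prop :=
  ∃ (c : Fin n → E3) (R : Fin n → ℝ), (∀ i, 0 < R i) ∧
    Function.Injective (fun i => Metric.closedBall (c i) (R i)) ∧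
    (n : ℕ∞) ^ 3 ≤ 1000 * ENat.card (ConnectedComponents
      (transversalSpace fun i => Metric.closedBall (c i) (R i)))

theorem cubic_of_balls {s D n : ℕ} (hs : 1 ≤ s) (hD : 2 ≤ D) (h : Balls n) :
    (n : ℕ∞) ^ 3 ≤ 1000 * maxComponents s D n := by
  obtain ⟨c, R, hR, hinj, h1⟩ := h
  exact h1.trans (by gcongr; exact maxComponents_ge_of_balls hs hD c R hR hinj)

theorem balls_of (hcomp : ∀ {n M : ℕ}, 2 ≤ n → 2 * n ≤ M + 1 →
      ((n * (n * (n - 1)) : ℕ) : ℕ∞) ≤
        ENat.card (ConnectedComponents (transversalSpace (fam n M))))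
    {N : ℕ} (hN : 10 ≤ N) : Balls N := by
  set n := N / 5 with hn
  set M := N - 3 * n with hM
  have hn2 : 2 ≤ n := by omega
  have hMn : 2 * n ≤ M := by omega
  have hcard : Fintype.card (Idx n M) = N := by
    simp only [Idx, Fintype.card_sum, Fintype.card_fin]; omega
  let e : Fin N ≃ Idx n M := (Fintype.equivFinOfCardEq hcard).symm
  have htr : transversalSpace (fun i => fam n M (e i)) = transversalSpace (fam n M) := by
    ext L
    constructor
    · intro h i
      have := h (e.symm i)
      simpa using this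
    · intro h i
      exact h (e i)
  refine ⟨fun i => cen n M (e i), fun i => Real.sqrt (rsq n M (e i)),
    fun i => Real.sqrt_pos.mpr (rsq_pos hn2 (e i)), (fam_injective hn2).comp e.injective, ?_⟩
  change (N : ℕ∞) ^ 3 ≤
    1000 * ENat.card (ConnectedComponents (transversalSpace fun i => fam n M (e i)))
  rw [htr]
  have h2 := hcomp (n := n) (M := M) hn2 (by omega)
  have h3 : N ^ 3 ≤ 1000 * (n * (n * (n - 1))) := by
    have h4 : N ≤ 5 * n + 4 := by omega
    have h5 : N ^ 3 ≤ (5 * n + 4) ^ 3 := Nat.pow_le_pow_left h4 3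
    refine h5.trans ?_
    obtain ⟨m, hm⟩ : ∃ m, n = m + 2 := ⟨n - 2, by omega⟩
    rw [hm]
    simp only [show m + 2 - 1 = m + 1 by omega]
    nlinarith [Nat.zero_le m, Nat.zero_le (m ^ 2), Nat.zero_le (m ^ 3)]
  calc (N : ℕ∞) ^ 3 = ((N ^ 3 : ℕ) : ℕ∞) := by push_cast; rfl
    _ ≤ ((1000 * (n * (n * (n - 1))) : ℕ) : ℕ∞) := by exact_mod_cast h3
    _ = 1000 * ((n * (n * (n - 1)) : ℕ) : ℕ∞) := by push_cast; rfl
    _ ≤ _ := by gcongr

end Pool.Agent.H44.TB
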