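import Pool.Agent.H44.TB.Par

set_option autoImplicit false

/-!
# [H44 TB Inj] The balls are non-degenerate and distinct (MP_ce02af_co)
-/

namespace Pool.Agent.H44.TB

variable {n M : ℕ}

theorem ce_sq_lt : ce n ^ 2 < cμ n := by
  have ha : 1 ≤ ca n := by unfold ca; linarith [Nat.cast_nonneg (α := ℝ) n]
  have ha0 : 0 < ca n := ca_pos
  unfold ce cμ
  rw [div_pow, one_pow]
  apply one_div_lt_one_div_of_lt (by positivity)
  have h1 : ca n ^ 6 ≤ ca n ^ 10 := pow_le_pow_right₀ ha (by norm_num)
  have h2 : 0 < ca n ^ 6 := by positivity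
  have h3 : (64 * ca n ^ 5) ^ 2 = 4096 * ca n ^ 10 := by ring
  rw [h3]
  linarith

theorem rsq_pos (_hn : 2 ≤ n) (i : Idx n M) : 0 < rsq n M i := by
  rcases i with (j | k) | (l | m)
  · change 0 < 4 + (4 * ((j : ℕ) : ℝ) * ce n) ^ 2
    positivity
  · change 0 < 4 + (4 * ((k : ℕ) : ℝ) * ce n) ^ 2
    positivity
  · change 0 < (cμ n * (1 - cr n l)) ^ 2 + (cμ n * cr n l) ^ 2 -
      2 * cμ n * (cr n l * (1 - cr n l)) * ce n ^ 2
    have hμ := cμ_pos (n := n)
    have h1 := ce_sq_lt (n := n)
    have h2 := cr_pos (n := n) (l : ℕ)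
    have h3 : 0 < 1 - cr n l := by have := cr_lt_one (n := n) l.2; linarith
    set r := cr n l with hr
    have h4 : 0 < cμ n * (r * (1 - r)) := by positivity
    have h5 : cμ n * (r * (1 - r)) * ce n ^ 2 < cμ n * (r * (1 - r)) * cμ n :=
      mul_lt_mul_of_pos_left h1 h4
    have h6 : 0 ≤ cμ n ^ 2 * (1 - 2 * r) ^ 2 := by positivity
    nlinarith
  · change 0 < 2 * cL n ^ 2 + (cL n * (2 * ((m : ℕ) : ℝ) + 1 - cδ n) * ce n) ^ 2
    have := cL_pos (n := n)
    positivity

theorem cen_injective (_hn : 2 ≤ n) : Function.Injective (cen n M) := by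
  have hμ := cμ_pos (n := n)
  have hL := cL_pos (n := n)
  have he := ce_pos (n := n)
  have ha := ca_pos (n := n)
  have hr : ∀ l : Fin n, 0 < cμ n * cr n l := fun l => mul_pos hμ (cr_pos _)
  have hr1 : ∀ l : Fin n, 0 < cμ n * (1 - cr n l) := fun l => mul_pos hμ (by
    have := cr_lt_one (n := n) l.2; linarith)
  rintro ((j | k) | (l | m)) ((j' | k') | (l' | m')) h
  · have h2 := congrArg (fun x : E3 => x 2) h
    simp only [cen, pt_2, neg_inj] at h2
    have h3 := mul_right_cancel₀ he.ne' h2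
    have h4 : ((j : ℕ) : ℝ) = ((j' : ℕ) : ℝ) := by linarith
    rw [Fin.ext (Nat.cast_injective h4)]
  · have h2 := congrArg (fun x : E3 => x 0) h
    simp only [cen, pt_0] at h2
    norm_num at h2
  · have h2 := congrArg (fun x : E3 => x 0) h
    simp only [cen, pt_0] at h2
    linarith [hr1 l']
  · have h2 := congrArg (fun x : E3 => x 1) h
    simp only [cen, pt_1] at h2
    linarith
  · have h2 := congrArg (fun x : E3 => x 0) h
    simp only [cen, pt_0] at h2
    norm_num at h2
  · have h2 := congrArg (fun x : E3 => x 2) h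
    simp only [cen, pt_2, neg_inj] at h2
    have h3 := mul_right_cancel₀ he.ne' h2
    have h4 : ((k : ℕ) : ℝ) = ((k' : ℕ) : ℝ) := by linarith
    rw [Fin.ext (Nat.cast_injective h4)]
  · have h2 := congrArg (fun x : E3 => x 1) h
    simp only [cen, pt_1] at h2
    linarith [hr l']
  · have h2 := congrArg (fun x : E3 => x 0) h
    simp only [cen, pt_0] at h2
    linarith
  · have h2 := congrArg (fun x : E3 => x 0) h
    simp only [cen, pt_0] at h2
    linarith [hr1 l]
  · have h2 := congrArg (fun x : E3 => x 1) h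
    simp only [cen, pt_1] at h2
    linarith [hr l]
  · have h2 := congrArg (fun x : E3 => x 1) h
    simp only [cen, pt_1, neg_inj] at h2
    have h3 := mul_left_cancel₀ hμ.ne' h2
    unfold cr at h3
    have h4 := (div_left_inj' ha.ne').mp h3
    have h5 : ((l : ℕ) : ℝ) = ((l' : ℕ) : ℝ) := by linarith
    rw [Fin.ext (Nat.cast_injective h5)]
  · have h2 := congrArg (fun x : E3 => x 0) h
    simp only [cen, pt_0] at h2
    linarith [hr1 l]
  · have h2 := congrArg (fun x : E3 => x 1) h
    simp only [cen, pt_1] at h2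
    linarith
  · have h2 := congrArg (fun x : E3 => x 0) h
    simp only [cen, pt_0] at h2
    linarith
  · have h2 := congrArg (fun x : E3 => x 0) h
    simp only [cen, pt_0] at h2
    linarith [hr1 l']
  · have h2 := congrArg (fun x : E3 => x 2) h
    simp only [cen, pt_2, neg_inj] at h2
    have h3 := mul_left_cancel₀ hL.ne' (mul_right_cancel₀ he.ne' h2)
    have h4 : ((m : ℕ) : ℝ) = ((m' : ℕ) : ℝ) := by linarith
    rw [Fin.ext (Nat.cast_injective h4)]

theorem fam_injective (hn : 2 ≤ n) : Function.Injective (fam n M) := fun _ _ h =>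
  cen_injective hn (center_eq (Real.sqrt_nonneg _) (Real.sqrt_nonneg _) h)

end Pool.Agent.H44.TB
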