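import Pool.Agent.H44.TB.Base

set_option autoImplicit false

/-!
# [H44 TB Par] Parameters and the family of balls (MP_ce02af_co)

`a = n + 1`, `δ = 1 / (16 a²)`, `e = 1 / (64 a⁵)` (scale of the slopes), `μ = 1 / (256 a⁶)` (size of the small balls),
`Λ = 4096 a⁴ = 16 / δ²` (size of the barrier balls), `η = 1 / (8 a³)`, `r_l = (l + 1) / a`.
-/

namespace Pool.Agent.H44.TB

/-- `a = n + 1`. -/
noncomputable def ca (n : ℕ) : ℝ := n + 1
/-- `δ = 1 / (16 a²)`. -/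
noncomputable def cδ (n : ℕ) : ℝ := 1 / (16 * ca n ^ 2)
/-- `e = 1 / (64 a⁵)`. -/
noncomputable def ce (n : ℕ) : ℝ := 1 / (64 * ca n ^ 5)
/-- `μ = 1 / (256 a⁶)`. -/
noncomputable def cμ (n : ℕ) : ℝ := 1 / (256 * ca n ^ 6)
/-- `Λ = 4096 a⁴`. -/
noncomputable def cL (n : ℕ) : ℝ := 4096 * ca n ^ 4
/-- `η = 1 / (8 a³)`. -/
noncomputable def ch (n : ℕ) : ℝ := 1 / (8 * ca n ^ 3)
/-- The tangent parameters `r_l = (l + 1) / (n + 1)`. -/
noncomputable def cr (n l : ℕ) : ℝ := (l + 1) / ca n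

/-- The index type of the family. -/
abbrev Idx (n M : ℕ) : Type := (Fin n ⊕ Fin n) ⊕ (Fin n ⊕ Fin M)

/-- The centres. -/
noncomputable def cen (n M : ℕ) : Idx n M → E3
  | Sum.inl (Sum.inl j) => pt 2 0 (-(4 * (j : ℕ) * ce n))
  | Sum.inl (Sum.inr k) => pt 0 2 (-(4 * (k : ℕ) * ce n))
  | Sum.inr (Sum.inl l) => pt (-(cμ n * (1 - cr n l))) (-(cμ n * cr n l)) 0
  | Sum.inr (Sum.inr m) => pt (cL n) (cL n) (-(cL n * (2 * (m : ℕ) + 1 - cδ n) * ce n))

/-- The squared radii. -/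
noncomputable def rsq (n M : ℕ) : Idx n M → ℝ
  | Sum.inl (Sum.inl j) => 4 + (4 * (j : ℕ) * ce n) ^ 2
  | Sum.inl (Sum.inr k) => 4 + (4 * (k : ℕ) * ce n) ^ 2
  | Sum.inr (Sum.inl l) => (cμ n * (1 - cr n l)) ^ 2 + (cμ n * cr n l) ^ 2 -
      2 * cμ n * (cr n l * (1 - cr n l)) * ce n ^ 2
  | Sum.inr (Sum.inr m) => 2 * cL n ^ 2 + (cL n * (2 * (m : ℕ) + 1 - cδ n) * ce n) ^ 2

/-- The family of balls. -/
noncomputable def fam (n M : ℕ) (i : Idx n M) : Set E3 :=
  Metric.closedBall (cen n M i) (Real.sqrt (rsq n M i))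

variable {n M : ℕ}

theorem ca_ge (hn : 2 ≤ n) : 3 ≤ ca n := by
  have : (2 : ℝ) ≤ n := by exact_mod_cast hn
  unfold ca; linarith

theorem ca_pos : 0 < ca n := by unfold ca; positivity

theorem cδ_pos : 0 < cδ n := by
  have := ca_pos (n := n)
  unfold cδ; positivity

theorem cδ_lt (hn : 2 ≤ n) : cδ n ≤ 1 / 144 := by
  have h := ca_ge hn
  unfold cδ
  apply one_div_le_one_div_of_le (by norm_num)
  nlinarith

theorem ce_pos : 0 < ce n := by
  have := ca_pos (n := n)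
  unfold ce; positivity

theorem cμ_pos : 0 < cμ n := by
  have := ca_pos (n := n)
  unfold cμ; positivity

theorem cL_pos : 0 < cL n := by
  have := ca_pos (n := n)
  unfold cL; positivity

theorem ch_pos : 0 < ch n := by
  have := ca_pos (n := n)
  unfold ch; positivity

theorem cr_pos (l : ℕ) : 0 < cr n l := by
  have := ca_pos (n := n)
  unfold cr; positivity

theorem cr_gap {l : ℕ} (hl : l < n) : 1 / ca n ≤ 1 - cr n l := by
  have h := ca_pos (n := n)
  unfold cr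
  rw [div_le_iff₀ h]
  have : (1 - ((l : ℝ) + 1) / ca n) * ca n = ca n - (l + 1) := by field_simp
  rw [this]
  have h2 : (l : ℝ) + 1 ≤ n := by exact_mod_cast hl
  unfold ca; linarith

theorem cr_lt_one {l : ℕ} (hl : l < n) : cr n l < 1 := by
  have h1 := cr_gap hl
  have h2 := ca_pos (n := n)
  have : 0 < 1 / ca n := by positivity
  linarith

theorem cr_succ (l : ℕ) : cr n (l + 1) = cr n l + 1 / ca n := by
  unfold cr; push_cast; ring


end Pool.Agent.H44.TB
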