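import Pool.Agent.H44.TB.Str

set_option autoImplicit false

/-!
# [H44 TB Smp] The sample lines (MP_ce02af_co, balls)

The parameters of the samples are those of `CubicLowerBound` (helper34).
-/

namespace Pool.Agent.H44.TB

variable {n M : ℕ}

/-- The `s`-parameter of the sample line with index `i`. -/
noncomputable def smp (n i : ℕ) : ℝ := (2 * i + 3) / (2 * ca n)

theorem smp_pos (i : ℕ) : 0 < smp n i := by
  have := ca_pos (n := n)
  unfold smp; positivity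

theorem smp_mid (i : ℕ) : smp n i = cr n i + 1 / (2 * ca n) := by
  have := ca_pos (n := n)
  unfold smp cr; field_simp; ring

theorem smp_mid' (i : ℕ) : smp n i = cr n (i + 1) - 1 / (2 * ca n) := by
  have := ca_pos (n := n)
  rw [smp_mid, cr_succ]; field_simp; ring

theorem cδ_small (hn : 2 ≤ n) : 2 * cδ n < 1 / (2 * ca n) := by
  have h := ca_ge hn
  have h0 : 0 < ca n := ca_pos
  unfold cδ
  rw [← mul_one_div, ← sub_pos]
  have : 1 / 1 * (1 / (2 * ca n)) - 2 * (1 / (16 * ca n ^ 2)) =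
      (4 * ca n - 1) / (8 * ca n ^ 2) := by field_simp; ring
  simp only [one_div, mul_inv_rev] at this ⊢
  have h3 : 0 < (4 * ca n - 1) / (8 * ca n ^ 2) := by
    apply div_pos (by linarith) (by positivity)
  nlinarith

theorem smp_t_pos (hn : 2 ≤ n) {i : ℕ} (hi : i + 1 < n) : 0 < 1 - smp n i - 2 * cδ n := by
  have h1 := cr_gap (n := n) hi
  have h2 := cδ_small hn
  have h0 : 0 < ca n := ca_pos
  have h3 : 0 < 1 / ca n := by positivity
  have h4 : 0 < 1 / (2 * ca n) := by positivity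
  rw [smp_mid']
  linarith

/-- The sample line. -/
noncomputable def sampleLine (n : ℕ) (c : ℕ × ℕ × ℕ) : Line3 :=
  lin (ce n * (2 * c.1 + smp n c.2.2)) (ce n * (2 * c.2.1 + (1 - smp n c.2.2 - 2 * cδ n)))
    (ce n ^ 2 * (-(smp n c.2.2) ^ 2 + ch n)) (ce n ^ 2 * (-(1 - smp n c.2.2 - 2 * cδ n) ^ 2 + ch n))

theorem a2e2 (hn : 2 ≤ n) : ca n ^ 2 * ce n ^ 2 ≤ 1 / 8 := by
  have ha := ca_ge hn
  have ha0 : 0 < ca n := ca_pos
  have h1 : ca n ^ 2 * ce n ^ 2 = 1 / (4096 * ca n ^ 8) := by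
    unfold ce; field_simp; norm_num
  rw [h1]
  apply one_div_le_one_div_of_le (by norm_num)
  have : 1 ≤ ca n ^ 8 := one_le_pow₀ (by linarith)
  linarith

theorem h66 (hn : 2 ≤ n) : 66 * ca n ^ 2 * ce n ^ 2 ≤ 4 * ch n := by
  have ha := ca_ge hn
  have ha0 : 0 < ca n := ca_pos
  have h1 : 66 * ca n ^ 2 * ce n ^ 2 = 66 / (4096 * ca n ^ 8) := by
    unfold ce; field_simp; norm_num
  have h2 : 4 * ch n = 1 / (2 * ca n ^ 3) := by
    unfold ch; field_simp; norm_num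
  rw [h1, h2, div_le_div_iff₀ (by positivity) (by positivity)]
  have h3 : ca n ^ 3 ≤ ca n ^ 8 := pow_le_pow_right₀ (by linarith) (by norm_num)
  nlinarith [pow_pos ha0 3]

theorem e2mu (hn : 2 ≤ n) : ce n ^ 2 ≤ cμ n * ch n := by
  have ha := ca_ge hn
  have ha0 : 0 < ca n := ca_pos
  have h1 : cμ n * ch n = 1 / (2048 * ca n ^ 9) := by
    unfold cμ ch; field_simp; norm_num
  have h2 : ce n ^ 2 = 1 / (4096 * ca n ^ 10) := by
    unfold ce; field_simp; norm_num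
  rw [h1, h2]
  apply one_div_le_one_div_of_le (by positivity)
  have h3 : ca n ^ 9 ≤ ca n ^ 10 := pow_le_pow_right₀ (by linarith) (by norm_num)
  nlinarith [pow_pos ha0 9]

theorem Lδ (n : ℕ) : cL n * cδ n ^ 2 = 16 := by
  have ha0 : 0 < ca n := ca_pos
  unfold cL cδ; field_simp; norm_num

/-- the samples and the small balls, with a margin -/
theorem marg {a r s t δ h : ℝ} (ha : 3 ≤ a) (hδ : δ = 1 / (16 * a ^ 2)) (hh : h = 1 / (8 * a ^ 3))
    (hr0 : 0 < r) (hr1 : 1 / a ≤ 1 - r) (hs0 : 0 < s) (ht : t = 1 - s - 2 * δ) (ht0 : 0 ≤ t)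
    (hsr : 1 / (2 * a) ≤ |s - r|) :
    (1 - r) * (-s ^ 2 + h) + r * (-t ^ 2 + h) + r * (1 - r) ≤ -h := by
  have ha0 : 0 < a := by linarith
  have hδ0 : 0 < δ := by rw [hδ]; positivity
  have h1a : 0 < 1 / a := by positivity
  have h1 : 4 * δ ≤ (s - r) ^ 2 := by
    have : (1 / (2 * a)) ^ 2 ≤ |s - r| ^ 2 := by
      apply pow_le_pow_left₀ (by positivity) hsr
    rw [sq_abs] at this
    rw [hδ]
    calc 4 * (1 / (16 * a ^ 2)) = (1 / (2 * a)) ^ 2 := by field_simp; norm_num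
      _ ≤ _ := this
  have h2 : 2 * h ≤ 4 * δ * (1 - r) := by
    have h3 : 2 * h = 4 * δ * (1 / a) := by rw [hδ, hh]; field_simp; norm_num
    rw [h3]
    exact mul_le_mul_of_nonneg_left hr1 (by positivity)
  have h3 : (1 - r) * (-s ^ 2 + h) + r * (-t ^ 2 + h) + r * (1 - r) =
      h - (s - r) ^ 2 + 4 * δ * (r * (1 - s - δ)) := by
    rw [ht]; ring
  have h4 : r * (1 - s - δ) ≤ r * 1 := mul_le_mul_of_nonneg_left (by linarith) hr0.le
  have h5 : 4 * δ * (r * (1 - s - δ)) ≤ 4 * δ * (r * 1) :=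
    mul_le_mul_of_nonneg_left h4 (by positivity)
  rw [h3]
  linarith

theorem sample_mem (hn : 2 ≤ n) {c : ℕ × ℕ × ℕ} (hc1 : c.1 < n) (hc2 : c.2.1 < n)
    (hi : c.2.2 + 1 < n) : sampleLine n c ∈ transversalSpace (fam n M) := by
  obtain ⟨j, k, i⟩ := c
  simp only at hi hc1 hc2
  have ha := ca_ge hn
  have ha0 : 0 < ca n := ca_pos
  have hδ0 : 0 < cδ n := cδ_pos
  have hδ1 := cδ_lt hn
  have he0 : 0 < ce n := ce_pos
  have hh0 : 0 < ch n := ch_pos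
  set s := smp n i with hs
  set t := 1 - smp n i - 2 * cδ n with ht
  have hs0 : 0 < s := smp_pos i
  have ht0 : 0 < t := smp_t_pos hn hi
  have hst : s + t = 1 - 2 * cδ n := by rw [hs, ht]; ring
  have hs1 : s ≤ 1 := by linarith
  have ht1 : t ≤ 1 := by linarith
  -- lower bounds for `s`, `t`
  have h1a : 0 < 1 / (2 * ca n) := by positivity
  have hsa : 1 / (2 * ca n) ≤ s := by
    have h1 := smp_mid (n := n) i
    have h2 := cr_pos (n := n) i
    rw [hs]; linarith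
  have hta : 1 / (2 * ca n) ≤ t := by
    have h1 := cr_gap (n := n) hi
    have h2 := cδ_small hn
    have h3 := smp_mid' (n := n) i
    have h4 : 1 / ca n = 1 / (2 * ca n) + 1 / (2 * ca n) := by field_simp; norm_num
    rw [ht]; linarith
  have hch : ch n ≤ (1 / (2 * ca n)) ^ 2 := by
    unfold ch
    rw [div_pow, one_pow]
    apply one_div_le_one_div_of_le (by positivity)
    nlinarith [pow_pos ha0 2]
  have hs2 : ch n ≤ s ^ 2 := hch.trans (pow_le_pow_left₀ h1a.le hsa 2)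
  have ht2 : ch n ≤ t ^ 2 := hch.trans (pow_le_pow_left₀ h1a.le hta 2)
  have hP0 : -s ^ 2 + ch n ≤ 0 := by linarith
  have hQ0 : -t ^ 2 + ch n ≤ 0 := by linarith
  have hs21 : s ^ 2 ≤ 1 := pow_le_one₀ hs0.le hs1
  have ht21 : t ^ 2 ≤ 1 := pow_le_one₀ ht0.le ht1
  have hP1 : -1 ≤ -s ^ 2 + ch n := by linarith
  have hQ1 : -1 ≤ -t ^ 2 + ch n := by linarith
  have hj0 : (0 : ℝ) ≤ j := by positivity
  have hk0 : (0 : ℝ) ≤ k := by positivity
  have hjn : (j : ℝ) + 1 ≤ n := by exact_mod_cast hc1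
  have hkn : (k : ℝ) + 1 ≤ n := by exact_mod_cast hc2
  have hA0 : 0 ≤ 2 * (j : ℝ) + s := by linarith
  have hB0 : 0 ≤ 2 * (k : ℝ) + t := by linarith
  have hA1 : 2 * (j : ℝ) + s ≤ 2 * ca n := by unfold ca; linarith
  have hB1 : 2 * (k : ℝ) + t ≤ 2 * ca n := by unfold ca; linarith
  have hae := a2e2 hn
  have h66' := h66 hn
  have h4ae : ∀ u : ℝ, 1 / (2 * ca n) ≤ u → 4 * ca n * ce n ^ 2 ≤ 2 * u := by
    intro u hu
    have h1 : 4 * ca n * ce n ^ 2 = 4 / (4096 * ca n ^ 9) := by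
      unfold ce; field_simp; norm_num
    have h2 : 4 / (4096 * ca n ^ 9) ≤ 2 * (1 / (2 * ca n)) := by
      have h3 : 2 * (1 / (2 * ca n)) = 1 / ca n := by field_simp
      rw [h3, div_le_div_iff₀ (by positivity) ha0]
      have h4 : ca n ^ 1 ≤ ca n ^ 9 := pow_le_pow_right₀ (by linarith) (by norm_num)
      rw [pow_one] at h4
      nlinarith
    rw [h1]
    linarith
  have key : ∀ (u : ℝ) (j j' : ℕ), 0 < u → u ≤ 1 →
      u ^ 2 ≤ (2 * (j : ℝ) + u - 2 * j') ^ 2 := by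
    intro u j j' hu hu1
    rcases le_or_gt j' j with h | h
    · have : (j' : ℝ) ≤ j := by exact_mod_cast h
      nlinarith
    · have : (j : ℝ) + 1 ≤ j' := by exact_mod_cast h
      nlinarith
  change lin (ce n * (2 * (j : ℝ) + s)) (ce n * (2 * (k : ℝ) + t)) (ce n ^ 2 * (-s ^ 2 + ch n))
    (ce n ^ 2 * (-t ^ 2 + ch n)) ∈ _
  rintro ((j' | k') | (l | m))
  · change (((lin (ce n * (2 * (j : ℝ) + s)) (ce n * (2 * (k : ℝ) + t))
      (ce n ^ 2 * (-s ^ 2 + ch n)) (ce n ^ 2 * (-t ^ 2 + ch n))).1 : Set E3) ∩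
      bl 2 0 (-(4 * ((j' : ℕ) : ℝ) * ce n)) (4 + (4 * ((j' : ℕ) : ℝ) * ce n) ^ 2)).Nonempty
    apply lin_meets (by positivity)
    have h := smp1 (X := 2 * (j : ℝ) + s - 2 * (j' : ℕ)) ha he0 (rfl : -s ^ 2 + ch n = -s ^ 2 + ch n)
      hP0 hP1 hQ0 hQ1 hA0 hA1 hB0 hB1 hs0 hs1 (key s j j' hs0 hs1) h66' (h4ae s hsa) hae
    have e1 : (ce n ^ 2 * (-s ^ 2 + ch n) - 2) ^ 2 + (ce n ^ 2 * (-t ^ 2 + ch n) - 0) ^ 2 +
        (-(4 * ((j' : ℕ) : ℝ) * ce n)) ^ 2 - (4 + (4 * ((j' : ℕ) : ℝ) * ce n) ^ 2) =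
        (ce n ^ 2 * (-s ^ 2 + ch n)) ^ 2 + (ce n ^ 2 * (-t ^ 2 + ch n)) ^ 2 -
          4 * (ce n ^ 2 * (-s ^ 2 + ch n)) := by ring
    have e2 : (ce n ^ 2 * (-s ^ 2 + ch n) - 2) * (ce n * (2 * (j : ℝ) + s)) +
        (ce n ^ 2 * (-t ^ 2 + ch n) - 0) * (ce n * (2 * (k : ℝ) + t)) -
          -(4 * ((j' : ℕ) : ℝ) * ce n) =
        ce n ^ 2 * (-s ^ 2 + ch n) * (ce n * (2 * (j : ℝ) + s)) +
          ce n ^ 2 * (-t ^ 2 + ch n) * (ce n * (2 * (k : ℝ) + t)) -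
          2 * ce n * (2 * (j : ℝ) + s - 2 * (j' : ℕ)) := by ring
    rw [e1, e2]
    exact h
  · change (((lin (ce n * (2 * (j : ℝ) + s)) (ce n * (2 * (k : ℝ) + t))
      (ce n ^ 2 * (-s ^ 2 + ch n)) (ce n ^ 2 * (-t ^ 2 + ch n))).1 : Set E3) ∩
      bl 0 2 (-(4 * ((k' : ℕ) : ℝ) * ce n)) (4 + (4 * ((k' : ℕ) : ℝ) * ce n) ^ 2)).Nonempty
    apply lin_meets (by positivity)
    have h := smp1 (X := 2 * (k : ℝ) + t - 2 * (k' : ℕ)) ha he0 (rfl : -t ^ 2 + ch n = -t ^ 2 + ch n)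
      hQ0 hQ1 hP0 hP1 hB0 hB1 hA0 hA1 ht0 ht1 (key t k k' ht0 ht1) h66' (h4ae t hta) hae
    have e1 : (ce n ^ 2 * (-s ^ 2 + ch n) - 0) ^ 2 + (ce n ^ 2 * (-t ^ 2 + ch n) - 2) ^ 2 +
        (-(4 * ((k' : ℕ) : ℝ) * ce n)) ^ 2 - (4 + (4 * ((k' : ℕ) : ℝ) * ce n) ^ 2) =
        (ce n ^ 2 * (-t ^ 2 + ch n)) ^ 2 + (ce n ^ 2 * (-s ^ 2 + ch n)) ^ 2 -
          4 * (ce n ^ 2 * (-t ^ 2 + ch n)) := by ring
    have e2 : (ce n ^ 2 * (-s ^ 2 + ch n) - 0) * (ce n * (2 * (j : ℝ) + s)) +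
        (ce n ^ 2 * (-t ^ 2 + ch n) - 2) * (ce n * (2 * (k : ℝ) + t)) -
          -(4 * ((k' : ℕ) : ℝ) * ce n) =
        ce n ^ 2 * (-t ^ 2 + ch n) * (ce n * (2 * (k : ℝ) + t)) +
          ce n ^ 2 * (-s ^ 2 + ch n) * (ce n * (2 * (j : ℝ) + s)) -
          2 * ce n * (2 * (k : ℝ) + t - 2 * (k' : ℕ)) := by ring
    have e3 : 1 + (ce n * (2 * (j : ℝ) + s)) ^ 2 + (ce n * (2 * (k : ℝ) + t)) ^ 2 =
        1 + (ce n * (2 * (k : ℝ) + t)) ^ 2 + (ce n * (2 * (j : ℝ) + s)) ^ 2 := by ring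
    rw [e1, e2, e3]
    exact h
  · change (((lin (ce n * (2 * (j : ℝ) + s)) (ce n * (2 * (k : ℝ) + t))
      (ce n ^ 2 * (-s ^ 2 + ch n)) (ce n ^ 2 * (-t ^ 2 + ch n))).1 : Set E3) ∩
      bl (-(cμ n * (1 - cr n l))) (-(cμ n * cr n l)) 0
      ((cμ n * (1 - cr n l)) ^ 2 + (cμ n * cr n l) ^ 2 -
        2 * cμ n * (cr n l * (1 - cr n l)) * ce n ^ 2)).Nonempty
    apply lin_meets (third_nonneg hn l.2)
    have hl : 1 / (2 * ca n) ≤ |s - cr n l| := by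
      rcases le_or_gt (l : ℕ) i with h | h
      · have h1 : cr n l ≤ cr n i := by
          unfold cr
          apply div_le_div_of_nonneg_right _ ha0.le
          have : ((l : ℕ) : ℝ) ≤ i := by exact_mod_cast h
          linarith
        have h2 := smp_mid (n := n) i
        rw [← hs] at h2
        rw [abs_of_nonneg]
        · linarith
        · linarith
      · have h1 : cr n (i + 1) ≤ cr n l := by
          unfold cr
          apply div_le_div_of_nonneg_right _ ha0.le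
          have : (i : ℝ) + 1 ≤ ((l : ℕ) : ℝ) := by exact_mod_cast h
          push_cast; linarith
        have h2 := smp_mid' (n := n) i
        rw [← hs] at h2
        rw [abs_of_nonpos]
        · linarith
        · linarith
    have hm := marg (h := ch n) ha (rfl : cδ n = 1 / (16 * ca n ^ 2)) rfl (cr_pos (n := n) l)
      (cr_gap l.2) hs0 (t := t) (by rw [ht]) ht0.le hl
    have hG : (ce n ^ 2 * (-s ^ 2 + ch n) - -(cμ n * (1 - cr n l))) ^ 2 +
        (ce n ^ 2 * (-t ^ 2 + ch n) - -(cμ n * cr n l)) ^ 2 + (0 : ℝ) ^ 2 -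
        ((cμ n * (1 - cr n l)) ^ 2 + (cμ n * cr n l) ^ 2 -
          2 * cμ n * (cr n l * (1 - cr n l)) * ce n ^ 2) ≤ 0 := by
      have e1 : (ce n ^ 2 * (-s ^ 2 + ch n) - -(cμ n * (1 - cr n l))) ^ 2 +
        (ce n ^ 2 * (-t ^ 2 + ch n) - -(cμ n * cr n l)) ^ 2 + (0 : ℝ) ^ 2 -
        ((cμ n * (1 - cr n l)) ^ 2 + (cμ n * cr n l) ^ 2 -
          2 * cμ n * (cr n l * (1 - cr n l)) * ce n ^ 2) =
        ce n ^ 2 * (ce n ^ 2 * ((-s ^ 2 + ch n) ^ 2 + (-t ^ 2 + ch n) ^ 2) +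
          2 * cμ n * ((1 - cr n l) * (-s ^ 2 + ch n) + cr n l * (-t ^ 2 + ch n) +
            cr n l * (1 - cr n l))) := by ring
      rw [e1]
      apply mul_nonpos_of_nonneg_of_nonpos (by positivity)
      have h1 : (-s ^ 2 + ch n) ^ 2 ≤ 1 := by nlinarith
      have h2 : (-t ^ 2 + ch n) ^ 2 ≤ 1 := by nlinarith
      have h3 : ce n ^ 2 * ((-s ^ 2 + ch n) ^ 2 + (-t ^ 2 + ch n) ^ 2) ≤ ce n ^ 2 * 2 :=
        mul_le_mul_of_nonneg_left (by linarith) (by positivity)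
      have h4 := e2mu hn
      have h5 := mul_le_mul_of_nonneg_left hm (cμ_pos (n := n)).le
      linarith
    have hN : (0 : ℝ) ≤ 1 + (ce n * (2 * (j : ℝ) + s)) ^ 2 + (ce n * (2 * (k : ℝ) + t)) ^ 2 := by
      positivity
    exact (mul_nonpos_of_nonneg_of_nonpos hN hG).trans (sq_nonneg _)
  · change (((lin (ce n * (2 * (j : ℝ) + s)) (ce n * (2 * (k : ℝ) + t))
      (ce n ^ 2 * (-s ^ 2 + ch n)) (ce n ^ 2 * (-t ^ 2 + ch n))).1 : Set E3) ∩
      bl (cL n) (cL n) (-(cL n * (2 * ((m : ℕ) : ℝ) + 1 - cδ n) * ce n))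
      (2 * cL n ^ 2 + (cL n * (2 * ((m : ℕ) : ℝ) + 1 - cδ n) * ce n) ^ 2)).Nonempty
    apply lin_meets (by positivity)
    have hX : cδ n ≤ |(2 * (j : ℝ) + s) + (2 * (k : ℝ) + t) - (2 * ((m : ℕ) : ℝ) + 1 - cδ n)| := by
      have e0 : (2 * (j : ℝ) + s) + (2 * (k : ℝ) + t) - (2 * ((m : ℕ) : ℝ) + 1 - cδ n) =
          2 * (((j + k : ℕ) : ℝ) - ((m : ℕ) : ℝ)) - cδ n := by
        push_cast; linarith
      rw [e0]
      rcases le_or_gt (j + k) (m : ℕ) with h | h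
      · have h1 : ((j + k : ℕ) : ℝ) ≤ ((m : ℕ) : ℝ) := by exact_mod_cast h
        rw [abs_of_nonpos (by linarith)]
        linarith
      · have h1 : ((m : ℕ) : ℝ) + 1 ≤ ((j + k : ℕ) : ℝ) := by exact_mod_cast h
        rw [abs_of_nonneg (by linarith)]
        linarith
    have h := smp3 ha he0 hP0 hP1 hQ0 hQ1 hA0 hA1 hB0 hB1 hδ0 (by linarith) hX (Lδ n) hae
    have e1 : (ce n ^ 2 * (-s ^ 2 + ch n) - cL n) ^ 2 + (ce n ^ 2 * (-t ^ 2 + ch n) - cL n) ^ 2 +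
        (-(cL n * (2 * ((m : ℕ) : ℝ) + 1 - cδ n) * ce n)) ^ 2 -
        (2 * cL n ^ 2 + (cL n * (2 * ((m : ℕ) : ℝ) + 1 - cδ n) * ce n) ^ 2) =
        (ce n ^ 2 * (-s ^ 2 + ch n)) ^ 2 + (ce n ^ 2 * (-t ^ 2 + ch n)) ^ 2 -
          2 * cL n * (ce n ^ 2 * (-s ^ 2 + ch n) + ce n ^ 2 * (-t ^ 2 + ch n)) := by ring
    have e2 : (ce n ^ 2 * (-s ^ 2 + ch n) - cL n) * (ce n * (2 * (j : ℝ) + s)) +
        (ce n ^ 2 * (-t ^ 2 + ch n) - cL n) * (ce n * (2 * (k : ℝ) + t)) -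
          -(cL n * (2 * ((m : ℕ) : ℝ) + 1 - cδ n) * ce n) =
        ce n ^ 2 * (-s ^ 2 + ch n) * (ce n * (2 * (j : ℝ) + s)) +
          ce n ^ 2 * (-t ^ 2 + ch n) * (ce n * (2 * (k : ℝ) + t)) -
          cL n * ce n * ((2 * (j : ℝ) + s) + (2 * (k : ℝ) + t) -
            (2 * ((m : ℕ) : ℝ) + 1 - cδ n)) := by ring
    rw [e1, e2]
    exact h

theorem sample_dir (hn : 2 ≤ n) {c : ℕ × ℕ × ℕ} (hi : c.2.2 + 1 < n) :
    sampleLine n c ∈ dirSet (coneOp n c) := by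
  obtain ⟨j, k, i⟩ := c
  simp only at hi
  have ha0 : 0 < ca n := ca_pos
  have hδ0 : 0 < cδ n := cδ_pos
  have he0 : 0 < ce n := ce_pos
  have h1 := smp_mid (n := n) i
  have h2 := smp_mid' (n := n) i
  have h3 := smp_t_pos hn hi
  have h4 : 0 < 1 / (2 * ca n) := by positivity
  refine ⟨_, dir_lin _ _ _ _, pt_ne _ _, ?_⟩
  rw [mem_coneOp]
  simp only [pt_0, pt_1, pt_2, mul_one]
  refine ⟨one_pos, ?_, ?_, ?_, ?_⟩
  · rw [mul_comm]; exact mul_lt_mul_of_pos_left (by linarith) he0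
  · rw [mul_comm _ (ce n)]; exact mul_lt_mul_of_pos_left (by linarith) he0
  · rw [mul_comm]; exact mul_lt_mul_of_pos_left (by linarith) he0
  · rw [mul_comm _ (ce n), ← mul_add]; exact mul_lt_mul_of_pos_left (by linarith) he0

/-- The open cones separate the sample lines. -/
theorem sep (hn : 2 ≤ n) {c d : ℕ × ℕ × ℕ} (hc : c.2.2 + 1 < n) (hd : d.2.2 + 1 < n)
    (h : sampleLine n d ∈ dirSet (coneOp n c)) : c = d := by
  obtain ⟨j, k, i⟩ := c
  obtain ⟨j', k', i'⟩ := d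
  simp only at hc hd
  obtain ⟨v, hv, hv0, hvc⟩ := h
  obtain ⟨c, rfl⟩ := direction_smul (dir_lin _ _ _ _) (pt_ne _ _) hv
  rw [mem_coneOp] at hvc
  simp only [PiLp.smul_apply, pt_0, pt_1, pt_2, smul_eq_mul, mul_one] at hvc
  obtain ⟨h2, hA, hB, hC, hD⟩ := hvc
  have ha0 : 0 < ca n := ca_pos
  have hδ0 : 0 < cδ n := cδ_pos
  have he0 : 0 < ce n := ce_pos
  have h2' : 0 < ce n * c := mul_pos he0 h2
  have m1 : ∀ x : ℝ, c * (ce n * x) = x * (ce n * c) := fun x => by ring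
  rw [m1] at hA hB hC
  rw [m1, m1, ← add_mul] at hD
  have hA' := lt_of_mul_lt_mul_right hA h2'.le
  have hB' := lt_of_mul_lt_mul_right hB h2'.le
  have hC' := lt_of_mul_lt_mul_right hC h2'.le
  have hD' : 2 * (j' : ℝ) + smp n i' + (2 * k' + (1 - smp n i' - 2 * cδ n)) <
      2 * (j + k) + 1 - cδ n := lt_of_mul_lt_mul_right hD h2'.le
  -- multiply by `a`
  have eA : 2 * (n + 1) * (j : ℝ) + i + 1 < 2 * (n + 1) * j' + i' + 3 / 2 := by
    have : (2 * (j : ℝ) + cr n i) * ca n < (2 * (j' : ℝ) + smp n i') * ca n :=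
      mul_lt_mul_of_pos_right hA' ha0
    have e1 : (2 * (j : ℝ) + cr n i) * ca n = 2 * ca n * j + i + 1 := by
      unfold cr; field_simp; ring
    have e2 : (2 * (j' : ℝ) + smp n i') * ca n = 2 * ca n * j' + i' + 3 / 2 := by
      unfold smp; field_simp; ring
    rw [e1, e2] at this
    unfold ca at this; exact this
  have eB : 2 * (n + 1) * (j' : ℝ) + i' + 3 / 2 < 2 * (n + 1) * j + i + 2 := by
    have : (2 * (j' : ℝ) + smp n i') * ca n < (2 * (j : ℝ) + cr n (i + 1)) * ca n :=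
      mul_lt_mul_of_pos_right hB' ha0
    have e1 : (2 * (j : ℝ) + cr n (i + 1)) * ca n = 2 * ca n * j + i + 2 := by
      unfold cr; push_cast; field_simp; ring
    have e2 : (2 * (j' : ℝ) + smp n i') * ca n = 2 * ca n * j' + i' + 3 / 2 := by
      unfold smp; field_simp; ring
    rw [e1, e2] at this
    unfold ca at this; exact this
  have nA : 2 * (n + 1) * j + i < 2 * (n + 1) * j' + i' + 1 := by
    have : ((2 * (n + 1) * j + i : ℕ) : ℝ) < ((2 * (n + 1) * j' + i' + 1 : ℕ) : ℝ) := by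
      push_cast; linarith
    exact_mod_cast this
  have nB : 2 * (n + 1) * j' + i' < 2 * (n + 1) * j + i + 1 := by
    have : ((2 * (n + 1) * j' + i' : ℕ) : ℝ) < ((2 * (n + 1) * j + i + 1 : ℕ) : ℝ) := by
      push_cast; linarith
    exact_mod_cast this
  have nE : 2 * (n + 1) * j + i = 2 * (n + 1) * j' + i' := by omega
  have hij : i = i' := by
    have h1 := congrArg (fun x => x % (2 * (n + 1))) nE
    simp only [Nat.mul_add_mod] at h1
    rwa [Nat.mod_eq_of_lt (by omega), Nat.mod_eq_of_lt (by omega)] at h1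
  subst hij
  have hjj : j = j' := by
    have h1 : 2 * (n + 1) * j = 2 * (n + 1) * j' := by omega
    exact Nat.eq_of_mul_eq_mul_left (by omega) h1
  subst hjj
  have ht0 := smp_t_pos hn hd
  have hs0 := smp_pos (n := n) i
  have kA : k < k' + 1 := by
    have : ((k : ℕ) : ℝ) < ((k' + 1 : ℕ) : ℝ) := by push_cast; linarith
    exact_mod_cast this
  have kB : k' < k + 1 := by
    have : ((k' : ℕ) : ℝ) < ((k + 1 : ℕ) : ℝ) := by
      push_cast; nlinarith [cδ_lt hn]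
    exact_mod_cast this
  have : k = k' := by omega
  subst this
  rfl

end Pool.Agent.H44.TB
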