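import Pool.Agent.H44.TB.Par
import Pool.Agent.H44.TB.Ari

set_option autoImplicit false

/-!
# [H44 TB Str] A transversal with direction in a closed cone has it in the open cone (MP_ce02af_co, balls)

`tangent_gap` and `edge_gap` are taken from `CubicLowerBound` (helper34).
-/

namespace Pool.Agent.H44.TB

/-- The basic inequality: near the tangent point `r`, the constraint `F` forces `s + t` up to the
barrier. -/
theorem tangent_gap {a r t ε δ : ℝ} (ha : 3 ≤ a) (hδ : δ = 1 / (16 * a ^ 2))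
    (hε : ε = 1 / (16 * a ^ 3)) (hr0 : 0 < r) (hr1 : 1 / a ≤ 1 - r) (ht0 : 0 ≤ t)
    (ht : r + t ≤ 1 - δ) (hF : 1 - ε ≤ r ^ 2 / r + t ^ 2 / (1 - r)) : False := by
  have ha0 : 0 < a := by linarith
  have h1r : 0 < 1 - r := lt_of_lt_of_le (by positivity) hr1
  have hδ0 : 0 < δ := by rw [hδ]; positivity
  have hε0 : 0 < ε := by rw [hε]; positivity
  have e1 : r ^ 2 / r = r := by field_simp
  rw [e1] at hF
  have h2 : (1 - r - ε) * (1 - r) ≤ t ^ 2 := by
    have : 1 - r - ε ≤ t ^ 2 / (1 - r) := by linarith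
    rwa [le_div_iff₀ h1r] at this
  have h3 : t ^ 2 ≤ (1 - r - δ) ^ 2 := by
    apply pow_le_pow_left₀ ht0; linarith
  have h4 : (1 - r) * (2 * δ - ε) ≤ δ ^ 2 := by nlinarith
  have h5 : ε ≤ δ / 3 := by
    rw [hδ, hε, div_div, one_div_le_one_div (by positivity) (by positivity)]
    nlinarith [pow_pos ha0 2]
  have h6 : δ ≤ (1 - r) * (2 * δ - ε) * a := by
    have : 1 ≤ (1 - r) * a := by
      rw [div_le_iff₀ ha0] at hr1; exact hr1
    nlinarith
  have h7 : δ ≤ δ ^ 2 * a := h6.trans (mul_le_mul_of_nonneg_right h4 ha0.le)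
  have h8 : 1 ≤ δ * a := by
    by_contra hcon
    push Not at hcon
    nlinarith
  have h9 : δ * a = 1 / (16 * a) := by rw [hδ]; field_simp
  rw [h9, le_div_iff₀ (by positivity)] at h8
  linarith

/-- The constraint `F` excludes `t = 0`. -/
theorem edge_gap {a r s ε : ℝ} (ha : 3 ≤ a) (hε : ε = 1 / (16 * a ^ 3)) (hr0 : 0 < r)
    (hr1 : 1 / a ≤ 1 - r) (hs0 : 0 ≤ s) (hs : s ≤ r) (hF : 1 - ε ≤ s ^ 2 / r) : False := by
  have ha0 : 0 < a := by linarith
  have h1 : s ^ 2 / r ≤ r := by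
    rw [div_le_iff₀ hr0]; nlinarith
  have h2 : ε < 1 / a := by
    rw [hε]
    apply one_div_lt_one_div_of_lt ha0
    nlinarith [pow_pos ha0 2, pow_pos ha0 3]
  linarith


variable {n M : ℕ}

/-- The closed cone of directions. -/
def coneCl (n : ℕ) (c : ℕ × ℕ × ℕ) : Set E3 :=
  {v | 0 ≤ v 2 ∧ (2 * c.1 + cr n c.2.2) * (ce n * v 2) ≤ v 0 ∧
    v 0 ≤ (2 * c.1 + cr n (c.2.2 + 1)) * (ce n * v 2) ∧
    2 * c.2.1 * (ce n * v 2) ≤ v 1 ∧ v 0 + v 1 ≤ (2 * (c.1 + c.2.1) + 1 - cδ n) * (ce n * v 2)}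

/-- The open cone of directions. -/
def coneOp (n : ℕ) (c : ℕ × ℕ × ℕ) : Set E3 :=
  {v | 0 < v 2 ∧ (2 * c.1 + cr n c.2.2) * (ce n * v 2) < v 0 ∧
    v 0 < (2 * c.1 + cr n (c.2.2 + 1)) * (ce n * v 2) ∧
    2 * c.2.1 * (ce n * v 2) < v 1 ∧ v 0 + v 1 < (2 * (c.1 + c.2.1) + 1 - cδ n) * (ce n * v 2)}

theorem mem_coneCl {c : ℕ × ℕ × ℕ} {v : E3} : v ∈ coneCl n c ↔
  0 ≤ v 2 ∧ (2 * c.1 + cr n c.2.2) * (ce n * v 2) ≤ v 0 ∧
    v 0 ≤ (2 * c.1 + cr n (c.2.2 + 1)) * (ce n * v 2) ∧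
    2 * c.2.1 * (ce n * v 2) ≤ v 1 ∧
    v 0 + v 1 ≤ (2 * (c.1 + c.2.1) + 1 - cδ n) * (ce n * v 2) := Iff.rfl

theorem mem_coneOp {c : ℕ × ℕ × ℕ} {v : E3} : v ∈ coneOp n c ↔
  0 < v 2 ∧ (2 * c.1 + cr n c.2.2) * (ce n * v 2) < v 0 ∧
    v 0 < (2 * c.1 + cr n (c.2.2 + 1)) * (ce n * v 2) ∧
    2 * c.2.1 * (ce n * v 2) < v 1 ∧
    v 0 + v 1 < (2 * (c.1 + c.2.1) + 1 - cδ n) * (ce n * v 2) := Iff.rfl

theorem coneOp_subset (c : ℕ × ℕ × ℕ) : coneOp n c ⊆ coneCl n c := fun _ h =>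
  ⟨h.1.le, h.2.1.le, h.2.2.1.le, h.2.2.2.1.le, h.2.2.2.2.le⟩

/-- `θ = 1 / (512 a⁸) = 8 a² e²` -/
theorem theta_eq {a : ℝ} (ha : 0 < a) :
    8 * a ^ 2 * (1 / (64 * a ^ 5)) ^ 2 = 1 / (512 * a ^ 8) := by
  field_simp; norm_num

theorem small {a : ℝ} (ha : 3 ≤ a) :
    4 * (1 / (256 * a ^ 6)) * a ^ 2 + 1 / (512 * a ^ 8) ≤ 1 / (32 * a ^ 4) := by
  have ha0 : 0 < a := by linarith
  have h1 : 4 * (1 / (256 * a ^ 6)) * a ^ 2 = 1 / (64 * a ^ 4) := by field_simp; norm_num
  have h2 : 1 / (512 * a ^ 8) ≤ 1 / (64 * a ^ 4) := by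
    apply one_div_le_one_div_of_le (by positivity)
    have : 1 ≤ a ^ 4 := one_le_pow₀ (by linarith)
    nlinarith [pow_pos ha0 4]
  have h3 : 1 / (32 * a ^ 4) = 1 / (64 * a ^ 4) + 1 / (64 * a ^ 4) := by field_simp; norm_num
  rw [h1, h3]
  linarith

theorem third_nonneg (hn : 2 ≤ n) {l : ℕ} (hl : l < n) :
    0 ≤ (cμ n * (1 - cr n l)) ^ 2 + (cμ n * cr n l) ^ 2 -
      2 * cμ n * (cr n l * (1 - cr n l)) * ce n ^ 2 := by
  have ha := ca_ge hn
  have ha0 : 0 < ca n := ca_pos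
  have hμ := cμ_pos (n := n)
  have hr0 := cr_pos (n := n) l
  have hr1 : 0 < 1 - cr n l := by linarith [cr_lt_one (n := n) hl]
  have h1 : ce n ^ 2 ≤ cμ n := by
    unfold ce cμ
    rw [div_pow, one_pow]
    apply one_div_le_one_div_of_le (by positivity)
    have h2 : ca n ^ 6 ≤ ca n ^ 10 := pow_le_pow_right₀ (by linarith) (by norm_num)
    have h3 : (64 * ca n ^ 5) ^ 2 = 4096 * ca n ^ 10 := by ring
    rw [h3]
    nlinarith [pow_pos ha0 6]
  have h2 : 2 * cμ n * (cr n l * (1 - cr n l)) * ce n ^ 2 ≤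
      2 * cμ n * (cr n l * (1 - cr n l)) * cμ n :=
    mul_le_mul_of_nonneg_left h1 (by positivity)
  nlinarith [sq_nonneg (cμ n * (1 - cr n l) - cμ n * cr n l)]

/-- A transversal whose direction lies in the closed cone has its direction in the open cone. -/
theorem strict (hn : 2 ≤ n) (hM : 2 * n ≤ M + 1) {j k i : ℕ} (hj : j < n) (hk : k < n)
    (hi : i + 1 < n) {L : Line3} (hL : L ∈ transversalSpace (fam n M)) {v : E3}
    (hv : v ∈ L.1.direction) (hv0 : v ≠ 0) (hvc : v ∈ coneCl n (j, k, i)) :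
    v ∈ coneOp n (j, k, i) := by
  rw [mem_coneCl] at hvc
  obtain ⟨h2, hA, hB, hC, hD⟩ := hvc
  simp only at hA hB hC hD
  have he0 : 0 < ce n := ce_pos
  have hv2 : 0 < v 2 := by
    rcases h2.lt_or_eq with h | h
    · exact h
    · exfalso
      rw [← h] at hA hB hC hD
      simp only [mul_zero] at hA hB hC hD
      apply hv0
      apply ext3
      · simp; linarith
      · simp; linarith
      · simp [← h]
  obtain ⟨p, q, hpq⟩ := line_coords L hv hv2
  have hev : 0 < ce n * v 2 := mul_pos he0 hv2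
  -- slopes
  set A := v 0 / (ce n * v 2) with hAd
  set B := v 1 / (ce n * v 2) with hBd
  have eα : v 0 = A * (ce n * v 2) := by rw [hAd]; field_simp
  have eβ : v 1 = B * (ce n * v 2) := by rw [hBd]; field_simp
  have eα' : v 0 / v 2 = ce n * A := by rw [hAd]; field_simp
  have eβ' : v 1 / v 2 = ce n * B := by rw [hBd]; field_simp
  rw [eα', eβ'] at hpq
  set s := A - 2 * j with hs
  set t := B - 2 * k with ht
  set a := ca n with ha
  set δ := cδ n with hδ
  set e := ce n with he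
  have ha3 : 3 ≤ a := ca_ge hn
  have ha0 : 0 < a := by linarith
  have hδ0 : 0 < δ := cδ_pos
  have hA' : cr n i ≤ s := by
    rw [eα] at hA
    have := le_of_mul_le_mul_right hA hev
    rw [hs]; linarith
  have hB' : s ≤ cr n (i + 1) := by
    rw [eα] at hB
    have := le_of_mul_le_mul_right hB hev
    rw [hs]; linarith
  have hC' : 0 ≤ t := by
    rw [eβ] at hC
    have := le_of_mul_le_mul_right hC hev
    rw [ht]; linarith
  have hD' : s + t ≤ 1 - δ := by
    rw [eα, eβ, ← add_mul] at hD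
    have := le_of_mul_le_mul_right hD hev
    rw [hs, ht]; linarith
  have hs0 : 0 < s := (cr_pos i).trans_le hA'
  have hs1 : s ≤ 1 := by linarith
  have ht1 : t ≤ 1 := by linarith
  have hAb : 0 ≤ A ∧ A ≤ 2 * a := by
    have hjn : (j : ℝ) + 1 ≤ n := by exact_mod_cast hj
    have hj0 : (0 : ℝ) ≤ j := by positivity
    constructor
    · rw [hs] at hs0; linarith
    · rw [hs] at hs1; rw [ha]; unfold ca; linarith
  have hBb : 0 ≤ B ∧ B ≤ 2 * a := by
    have hkn : (k : ℝ) + 1 ≤ n := by exact_mod_cast hk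
    have hk0 : (0 : ℝ) ≤ k := by positivity
    constructor
    · rw [ht] at hC'; linarith
    · rw [ht] at ht1; rw [ha]; unfold ca; linarith
  have hθ : 8 * a ^ 2 * e ^ 2 = 1 / (512 * a ^ 8) := by
    rw [he, ha]; exact theta_eq ca_pos
  have hη : (e * A) ^ 2 + (e * B) ^ 2 ≤ 1 / (512 * a ^ 8) := by
    rw [← hθ]
    have h1 : A ^ 2 ≤ (2 * a) ^ 2 := pow_le_pow_left₀ hAb.1 hAb.2 2
    have h2 : B ^ 2 ≤ (2 * a) ^ 2 := pow_le_pow_left₀ hBb.1 hBb.2 2
    have h3 : 0 < e ^ 2 := by positivity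
    nlinarith
  have hη2 : (e * A) ^ 2 + (e * B) ^ 2 ≤ 1 / 2 := by
    refine hη.trans ?_
    apply one_div_le_one_div_of_le (by norm_num)
    have : 1 ≤ a ^ 8 := one_le_pow₀ (by linarith)
    linarith
  -- constraint from the balls of the first two kinds
  have cA : -(4 * p) ≤ (1 + 1 / (512 * a ^ 8)) * (2 * e * s) ^ 2 := by
    obtain ⟨x, hxL, hx⟩ := hL (Sum.inl (Sum.inl ⟨j, hj⟩))
    have hx' : x ∈ bl 2 0 (-(4 * (j : ℝ) * e)) (4 + (4 * (j : ℝ) * e) ^ 2) := hx
    have h := disc_of_mem (by positivity) hx' (hpq x hxL).1 (hpq x hxL).2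
    refine nec1 (p := p) (q := q) (α := e * A) (β := e * B) (by positivity) hη ?_
    have e1 : (p - 2) ^ 2 + (q - 0) ^ 2 + (-(4 * (j : ℝ) * e)) ^ 2 -
        (4 + (4 * (j : ℝ) * e) ^ 2) = p ^ 2 + q ^ 2 - 4 * p := by ring
    have e2 : (p - 2) * (e * A) + (q - 0) * (e * B) - -(4 * (j : ℝ) * e) =
        p * (e * A) + q * (e * B) - 2 * e * s := by rw [hs]; ring
    rw [e1, e2] at h
    exact h
  have cB : -(4 * q) ≤ (1 + 1 / (512 * a ^ 8)) * (2 * e * t) ^ 2 := by
    obtain ⟨x, hxL, hx⟩ := hL (Sum.inl (Sum.inr ⟨k, hk⟩))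
    have hx' : x ∈ bl 0 2 (-(4 * (k : ℝ) * e)) (4 + (4 * (k : ℝ) * e) ^ 2) := hx
    have h := disc_of_mem (by positivity) hx' (hpq x hxL).1 (hpq x hxL).2
    refine nec1 (p := q) (q := p) (α := e * B) (β := e * A) (by positivity) (by linarith) ?_
    have e1 : (p - 0) ^ 2 + (q - 2) ^ 2 + (-(4 * (k : ℝ) * e)) ^ 2 -
        (4 + (4 * (k : ℝ) * e) ^ 2) = q ^ 2 + p ^ 2 - 4 * q := by ring
    have e2 : (p - 0) * (e * A) + (q - 2) * (e * B) - -(4 * (k : ℝ) * e) =
        q * (e * B) + p * (e * A) - 2 * e * t := by rw [ht]; ring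
    have e3 : 1 + (e * A) ^ 2 + (e * B) ^ 2 = 1 + (e * B) ^ 2 + (e * A) ^ 2 := by ring
    rw [e1, e2, e3] at h
    exact h
  -- constraint from the balls of the third kind
  have cF : ∀ l : ℕ, l < n → (1 - cr n l) * p + cr n l * q + cr n l * (1 - cr n l) * e ^ 2 ≤
      cμ n * (2 * a * e) ^ 2 := by
    intro l hl
    obtain ⟨x, hxL, hx⟩ := hL (Sum.inr (Sum.inl ⟨l, hl⟩))
    have hr0 := cr_pos (n := n) l
    have hr2 : 0 < 1 - cr n l := by linarith [cr_lt_one (n := n) hl]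
    have hμ := cμ_pos (n := n)
    have hx' : x ∈ bl (-(cμ n * (1 - cr n l))) (-(cμ n * cr n l)) 0
      ((cμ n * (1 - cr n l)) ^ 2 + (cμ n * cr n l) ^ 2 -
        2 * cμ n * (cr n l * (1 - cr n l)) * e ^ 2) := hx
    have h := disc_of_mem (third_nonneg hn hl) hx' (hpq x hxL).1 (hpq x hxL).2
    have e1 : (p - -(cμ n * (1 - cr n l))) ^ 2 + (q - -(cμ n * cr n l)) ^ 2 + (0 : ℝ) ^ 2 -
        ((cμ n * (1 - cr n l)) ^ 2 + (cμ n * cr n l) ^ 2 -
          2 * cμ n * (cr n l * (1 - cr n l)) * e ^ 2) =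
        p ^ 2 + q ^ 2 + 2 * cμ n *
          ((1 - cr n l) * p + cr n l * q + cr n l * (1 - cr n l) * e ^ 2) := by ring
    have e2 : (p - -(cμ n * (1 - cr n l))) * (e * A) + (q - -(cμ n * cr n l)) * (e * B) - 0 =
        p * (e * A) + q * (e * B) + cμ n * ((1 - cr n l) * (e * A) + cr n l * (e * B)) := by ring
    rw [e1, e2] at h
    refine (nec2 hμ hη2 h).trans ?_
    apply mul_le_mul_of_nonneg_left _ hμ.le
    have h3 : 0 ≤ (1 - cr n l) * (e * A) + cr n l * (e * B) :=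
      add_nonneg (mul_nonneg hr2.le (mul_nonneg he0.le hAb.1))
        (mul_nonneg hr0.le (mul_nonneg he0.le hBb.1))
    apply pow_le_pow_left₀ h3
    have h4 := mul_le_mul_of_nonneg_left hAb.2 he0.le
    have h5 := mul_le_mul_of_nonneg_left hBb.2 he0.le
    have h6 := mul_le_mul_of_nonneg_left h4 hr2.le
    have h7 := mul_le_mul_of_nonneg_left h5 hr0.le
    linarith
  have hgap : ∀ l : ℕ, 1 / a ≤ cr n l := by
    intro l
    unfold cr
    apply div_le_div_of_nonneg_right _ ha0.le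
    have : (0 : ℝ) ≤ l := by positivity
    linarith
  have cF' : ∀ l : ℕ, l < n →
      1 - 1 / (16 * a ^ 3) ≤ s ^ 2 / cr n l + t ^ 2 / (1 - cr n l) := by
    intro l hl
    exact comb ha3 he0 (hgap l) (cr_gap hl) hs0.le hs1 hC' ht1 (by positivity) cA cB (cF l hl)
      (small ha3)
  have hin : i < n := by omega
  -- strictness at the two ends
  have sA : cr n i < s := by
    rcases hA'.lt_or_eq with h | h
    · exact h
    · exfalso
      have := cF' i hin
      rw [← h] at this hD'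
      exact tangent_gap ha3 hδ rfl (cr_pos i) (cr_gap hin) hC' hD' this
  have sB : s < cr n (i + 1) := by
    rcases hB'.lt_or_eq with h | h
    · exact h
    · exfalso
      have := cF' (i + 1) hi
      rw [h] at this hD'
      exact tangent_gap ha3 hδ rfl (cr_pos (i + 1)) (cr_gap hi) hC' hD' this
  have sC : 0 < t := by
    rcases hC'.lt_or_eq with h | h
    · exact h
    · exfalso
      have := cF' (i + 1) hi
      rw [← h] at this
      simp only [ne_eq, OfNat.ofNat_ne_zero, not_false_eq_true, zero_pow, zero_div,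
        add_zero] at this
      exact edge_gap ha3 rfl (cr_pos (i + 1)) (cr_gap hi) hs0.le hB' this
  have sD : s + t < 1 - δ := by
    rcases hD'.lt_or_eq with h | h
    · exact h
    · exfalso
      have hm : j + k < M := by omega
      obtain ⟨x, hxL, hx⟩ := hL (Sum.inr (Sum.inr ⟨j + k, hm⟩))
      have hx' : x ∈ bl (cL n) (cL n) (-(cL n * (2 * ((j + k : ℕ) : ℝ) + 1 - δ) * e))
        (2 * cL n ^ 2 + (cL n * (2 * ((j + k : ℕ) : ℝ) + 1 - δ) * e) ^ 2) := hx
      have h1 := disc_of_mem (by positivity) hx' (hpq x hxL).1 (hpq x hxL).2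
      have hsum : A + B = 2 * ((j + k : ℕ) : ℝ) + 1 - δ := by
        rw [hs, ht] at h; push_cast; linarith
      rw [← hsum] at h1
      have e1 : (p - cL n) ^ 2 + (q - cL n) ^ 2 + (-(cL n * (A + B) * e)) ^ 2 -
          (2 * cL n ^ 2 + (cL n * (A + B) * e) ^ 2) =
          p ^ 2 + q ^ 2 - 2 * cL n * (p + q) := by ring
      have e2 : (p - cL n) * (e * A) + (q - cL n) * (e * B) - -(cL n * (A + B) * e) =
          p * (e * A) + q * (e * B) := by ring
      rw [e1, e2] at h1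
      have h3 := nec3 cL_pos h1
      -- the conditions for `r_0` and `r_(n-1) = 1 - r_0`
      have h4 := cF 0 (by omega)
      have h5 := cF (n - 1) (by omega)
      have h6 : cr n (n - 1) = 1 - cr n 0 := by
        have hc : ((n - 1 : ℕ) : ℝ) = (n : ℝ) - 1 := by
          rw [Nat.cast_sub (by omega)]; simp
        have ha' : ca n = (n : ℝ) + 1 := rfl
        have : ca n ≠ 0 := ca_pos.ne'
        unfold cr
        rw [hc]
        field_simp
        rw [ha']
        push_cast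
        ring
      rw [h6] at h5
      have h7 : 0 < e ^ 2 := by positivity
      have h8 : 4 * cμ n * a ^ 2 < cr n 0 * (1 - cr n 0) := by
        have h9 : 4 * cμ n * a ^ 2 ≤ 1 / (32 * a ^ 4) := by
          have := small ha3
          have h10 : 0 < 1 / (512 * a ^ 8) := by positivity
          unfold cμ
          rw [← ha]
          linarith
        have h10 : 1 / (32 * a ^ 4) < 1 / a * (1 / a) := by
          have : 1 / a * (1 / a) = 1 / a ^ 2 := by field_simp
          rw [this]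
          apply one_div_lt_one_div_of_lt (by positivity)
          have : 1 ≤ a ^ 2 := one_le_pow₀ (by linarith)
          nlinarith
        have h11 : 1 / a * (1 / a) ≤ cr n 0 * (1 - cr n 0) :=
          mul_le_mul (hgap 0) (cr_gap (by omega)) (by positivity) (cr_pos 0).le
        linarith
      nlinarith
  -- conclude
  rw [mem_coneOp]
  simp only
  refine ⟨hv2, ?_, ?_, ?_, ?_⟩
  · rw [eα]; apply mul_lt_mul_of_pos_right _ hev; rw [hs] at sA; linarith
  · rw [eα]; apply mul_lt_mul_of_pos_right _ hev; rw [hs] at sB; linarith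
  · rw [eβ]; apply mul_lt_mul_of_pos_right _ hev; rw [ht] at sC; linarith
  · rw [eα, eβ, ← add_mul]; apply mul_lt_mul_of_pos_right _ hev; rw [hs, ht] at sD; linarith

end Pool.Agent.H44.TB
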